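import Mathlib

/-!
MP_912b3a_nt: a large prime power `q` and the area of a primitive Pythagorean triangle.
Algebra of the pairs of triangles of one area, where `X = q k` is the part divisible by `q` and
`s` is the small part.
-/

namespace Pool.Agent.H83.UQ

theorem low_le {q β γ s k : ℤ} (hq : 0 < q) (hs : 0 < s) (hk : 0 < k) (h1 : s ≤ q * k)
    (hβ : |β| ≤ 12) (hγ : |γ| ≤ 8) :
    |β * q * (s ^ 2 * k ^ 2) + γ * (s ^ 3 * k)| ≤ 20 * q * (s ^ 2 * k ^ 2) := by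
  have h2 : s ^ 3 * k ≤ q * (s ^ 2 * k ^ 2) := by
    have h := mul_le_mul_of_nonneg_left h1 (show 0 ≤ s ^ 2 * k by positivity)
    calc s ^ 3 * k = s ^ 2 * k * s := by ring
      _ ≤ s ^ 2 * k * (q * k) := h
      _ = q * (s ^ 2 * k ^ 2) := by ring
  have h3 : |β * q * (s ^ 2 * k ^ 2)| ≤ 12 * (q * (s ^ 2 * k ^ 2)) := by
    have h0 : 0 < q * (s ^ 2 * k ^ 2) := by positivity
    rw [mul_assoc, abs_mul, abs_of_pos h0]
    exact mul_le_mul_of_nonneg_right hβ h0.le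
  have h4 : |γ * (s ^ 3 * k)| ≤ 8 * (s ^ 3 * k) := by
    have h0 : 0 < s ^ 3 * k := by positivity
    rw [abs_mul, abs_of_pos h0]
    exact mul_le_mul_of_nonneg_right hγ h0.le
  have h5 := abs_add_le (β * q * (s ^ 2 * k ^ 2)) (γ * (s ^ 3 * k))
  linarith

/-- the leading terms agree, and so do the lower terms -/
theorem lead {A q α β γ s k α' β' γ' s' k' : ℤ} (hq : 0 < q) (hs : 0 < s) (hk : 0 < k)
    (hs' : 0 < s') (hk' : 0 < k') (h1 : s ≤ q * k) (h1' : s' ≤ q * k') (hβ : |β| ≤ 12)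
    (hγ : |γ| ≤ 8) (hβ' : |β'| ≤ 12) (hγ' : |γ'| ≤ 8)
    (he : 4 * A = s * (q * k) * (α * (q * k) ^ 2 + β * (q * k) * s + γ * s ^ 2))
    (he' : 4 * A = s' * (q * k') * (α' * (q * k') ^ 2 + β' * (q * k') * s' + γ' * s' ^ 2))
    (H : 60 * (s ^ 2 * k ^ 6) < q) (H' : 60 * (s' ^ 2 * k' ^ 6) < q) :
    α * (s * k ^ 3) = α' * (s' * k' ^ 3) ∧
      β * q * (s ^ 2 * k ^ 2) + γ * (s ^ 3 * k) =
        β' * q * (s' ^ 2 * k' ^ 2) + γ' * (s' ^ 3 * k') := by
  have h2 := low_le hq hs hk h1 hβ hγ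
  have h2' := low_le hq hs' hk' h1' hβ' hγ'
  have h3 : q ^ 2 * (α * (s * k ^ 3) - α' * (s' * k' ^ 3)) =
      (β' * q * (s' ^ 2 * k' ^ 2) + γ' * (s' ^ 3 * k')) -
        (β * q * (s ^ 2 * k ^ 2) + γ * (s ^ 3 * k)) := by
    apply mul_left_cancel₀ hq.ne'
    linear_combination he' - he
  have h4 : s ^ 2 * k ^ 2 ≤ s ^ 2 * k ^ 6 :=
    mul_le_mul_of_nonneg_left (pow_le_pow_right₀ (by omega) (by norm_num)) (by positivity)
  have h4' : s' ^ 2 * k' ^ 2 ≤ s' ^ 2 * k' ^ 6 :=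
    mul_le_mul_of_nonneg_left (pow_le_pow_right₀ (by omega) (by norm_num)) (by positivity)
  have h5 : |q ^ 2 * (α * (s * k ^ 3) - α' * (s' * k' ^ 3))| < q ^ 2 := by
    rw [h3]
    have h6 := abs_sub (β' * q * (s' ^ 2 * k' ^ 2) + γ' * (s' ^ 3 * k'))
      (β * q * (s ^ 2 * k ^ 2) + γ * (s ^ 3 * k))
    have h7 : 20 * (s ^ 2 * k ^ 2) + 20 * (s' ^ 2 * k' ^ 2) < q := by linarith
    have h8 := mul_lt_mul_of_pos_left h7 hq
    nlinarith
  have h6 : α * (s * k ^ 3) - α' * (s' * k' ^ 3) = 0 := by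
    by_contra h
    have h7 : 1 ≤ |α * (s * k ^ 3) - α' * (s' * k' ^ 3)| := Int.one_le_abs h
    rw [abs_mul, abs_of_pos (by positivity : 0 < q ^ 2)] at h5
    nlinarith [mul_le_mul_of_nonneg_left h7 (by positivity : 0 ≤ q ^ 2)]
  refine ⟨by linarith, ?_⟩
  rw [h6, mul_zero] at h3
  linarith

theorem pow_inj {a b : ℤ} (ha : 0 < a) (hb : 0 < b) {n : ℕ} (hn : n ≠ 0) (h : a ^ n = b ^ n) :
    a = b := (pow_left_inj₀ ha.le hb.le hn).mp h

theorem no_two {k k' : ℤ} (hk : 0 < k) (hk' : 0 < k') : k ^ 2 ≠ 2 * k' ^ 2 := by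
  intro h
  have h1 := congrArg (padicValInt 2) h
  rw [padicValInt.mul (by norm_num) (by positivity), pow_two, pow_two,
    padicValInt.mul hk.ne' hk.ne', padicValInt.mul hk'.ne' hk'.ne'] at h1
  have h2 : padicValInt 2 2 = 1 := by
    have := padicValInt.self (p := 2) (by norm_num)
    simpa using this
  omega

/-- two triangles of the same class -/
theorem same {q α β γ s k s' k' : ℤ} (hs : 0 < s) (hk : 0 < k) (hs' : 0 < s') (hk' : 0 < k')
    (hα : α ≠ 0) (h1 : α * (s * k ^ 3) = α * (s' * k' ^ 3))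
    (h2 : β * q * (s ^ 2 * k ^ 2) + γ * (s ^ 3 * k) =
      β * q * (s' ^ 2 * k' ^ 2) + γ * (s' ^ 3 * k'))
    (hbr : β * q * (k * k') + γ * (s * k' + s' * k) ≠ 0) : s = s' ∧ k = k' := by
  have h3 : s * k ^ 3 = s' * k' ^ 3 := mul_left_cancel₀ hα h1
  have h4 : (s ^ 2 * k ^ 2 - s' ^ 2 * k' ^ 2) * (s * k' + s' * k) =
      (s ^ 3 * k - s' ^ 3 * k') * (k * k') := by
    linear_combination (s * s') * h3
  have h5 : (s ^ 2 * k ^ 2 - s' ^ 2 * k' ^ 2) *
      (β * q * (k * k') + γ * (s * k' + s' * k)) = 0 := by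
    linear_combination (k * k') * h2 + γ * h4
  have h6 : s ^ 2 * k ^ 2 - s' ^ 2 * k' ^ 2 = 0 := by
    rcases mul_eq_zero.mp h5 with h | h
    · exact h
    · exact absurd h hbr
  have h7 : s * k = s' * k' :=
    pow_inj (by positivity) (by positivity) two_ne_zero (by linear_combination h6)
  have h8 : k ^ 2 = k' ^ 2 := by
    apply mul_left_cancel₀ (show s * k ≠ 0 by positivity)
    linear_combination h3 - k' ^ 2 * h7
  have h9 := pow_inj hk hk' two_ne_zero h8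
  subst h9
  exact ⟨mul_right_cancel₀ hk.ne' h7, rfl⟩

/-- two triangles whose leading terms differ by the factor 2 -/
theorem dbl {q β s k s' k' : ℤ} (hs : 0 < s) (hk : 0 < k) (hs' : 0 < s') (hk' : 0 < k')
    (h3 : s * k ^ 3 = 2 * (s' * k' ^ 3))
    (h2 : β * q * (s ^ 2 * k ^ 2) + 8 * (s ^ 3 * k) =
      β * q * (s' ^ 2 * k' ^ 2) + 4 * (s' ^ 3 * k'))
    (hbr : β * q * (k * k') + 4 * (2 * (s * k') + s' * k) ≠ 0) : False := by
  have h4 : (s ^ 2 * k ^ 2 - s' ^ 2 * k' ^ 2) * (2 * (s * k') + s' * k) =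
      (2 * (s ^ 3 * k) - s' ^ 3 * k') * (k * k') := by
    linear_combination (s * s') * h3
  have h5 : (s ^ 2 * k ^ 2 - s' ^ 2 * k' ^ 2) *
      (β * q * (k * k') + 4 * (2 * (s * k') + s' * k)) = 0 := by
    linear_combination (k * k') * h2 + 4 * h4
  have h6 : s ^ 2 * k ^ 2 - s' ^ 2 * k' ^ 2 = 0 := by
    rcases mul_eq_zero.mp h5 with h | h
    · exact h
    · exact absurd h hbr
  have h7 : s * k = s' * k' :=
    pow_inj (by positivity) (by positivity) two_ne_zero (by linear_combination h6)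
  have h8 : k ^ 2 = 2 * k' ^ 2 := by
    apply mul_left_cancel₀ (show s * k ≠ 0 by positivity)
    linear_combination h3 - 2 * k' ^ 2 * h7
  exact no_two hk hk' h8

/-- the classes `(4, 0, -4)` and `(1, 0, -1)` -/
theorem quad {s k s' k' : ℤ} (hs : 0 < s) (hk : 0 < k) (hk' : 0 < k')
    (h1 : 4 * (s * k ^ 3) = s' * k' ^ 3) (h2 : 4 * (s ^ 3 * k) = s' ^ 3 * k') : False := by
  have h3 : (k' ^ 4) ^ 2 = (4 * k ^ 4) ^ 2 := by
    apply mul_left_cancel₀ (show 4 * (s ^ 3 * k) ≠ 0 by positivity)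
    calc 4 * (s ^ 3 * k) * (k' ^ 4) ^ 2 = s' ^ 3 * k' * (k' ^ 4) ^ 2 := by rw [h2]
      _ = (s' * k' ^ 3) ^ 3 := by ring
      _ = (4 * (s * k ^ 3)) ^ 3 := by rw [h1]
      _ = 4 * (s ^ 3 * k) * (4 * k ^ 4) ^ 2 := by ring
  have h4 : k' ^ 4 = 4 * k ^ 4 := pow_inj (by positivity) (by positivity) two_ne_zero h3
  have h5 : k' ^ 2 = 2 * k ^ 2 :=
    pow_inj (by positivity) (by positivity) two_ne_zero (by linear_combination h4)
  exact no_two hk' hk h5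

end Pool.Agent.H83.UQ
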