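import Pool.Agent.H83.LP.Main
import Pool.Agent.H83.UQ.Alg

/-!
MP_912b3a_nt: a large prime power `q` and the area of a primitive Pythagorean triangle.
The six classes of triangles, by the position of the part divisible by `q`.
-/

namespace Pool.Agent.H83.UQ

open Pool.Agent.H99.PT Pool.Agent.H83.LP

/-- the class `c` of the triangle `v` with small part `s` and `X` the part divisible by `q` -/
def Cl (v : ℕ × ℕ) (X s : ℕ) : Fin 6 → Prop :=
  ![v.1 = X ∧ v.2 = s ∧ 2 * s ≤ X,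
    v.1 = X + s ∧ v.2 = s ∧ s ≤ X,
    v.1 + s = X ∧ v.2 = s ∧ 3 * s ≤ X,
    v.1 = X ∧ v.2 + s = X ∧ 2 * s ≤ X,
    v.1 = X + s ∧ v.2 = X ∧ s ≤ X,
    v.1 + v.2 = X ∧ v.1 = v.2 + s ∧ 3 * s ≤ X]

theorem cl_inj {v w : ℕ × ℕ} {X s : ℕ} {c : Fin 6} (h : Cl v X s c) (h' : Cl w X s c) :
    v = w := by
  obtain ⟨m, n⟩ := v
  obtain ⟨m', n'⟩ := w
  rw [Prod.mk.injEq]
  fin_cases c <;> simp [Cl] at h h' <;> omega

/-- coefficients of the area -/
def co : Fin 6 → ℤ × ℤ × ℤ :=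
  ![(4, 0, -4), (4, 12, 8), (4, -12, 8), (8, -12, 4), (8, 12, 4), (1, 0, -1)]

theorem cl_area {A : ℕ} {v : ℕ × ℕ} (hv : Gen A v) {X s : ℕ} {c : Fin 6} (h : Cl v X s c) :
    4 * (A : ℤ) = s * X * ((co c).1 * (X : ℤ) ^ 2 + (co c).2.1 * X * s + (co c).2.2 * (s : ℤ) ^ 2)
    := by
  obtain ⟨h1, h2, h3, h4, h5⟩ := hv
  obtain ⟨m, n⟩ := v
  simp only at h1 h2 h3 h4 h5
  have h6 : (A : ℤ) = m * n * ((m : ℤ) ^ 2 - (n : ℤ) ^ 2) := by
    rw [← h5]
    push_cast [Nat.cast_sub (Nat.pow_le_pow_left h2.le 2)]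
    ring
  rw [h6]
  fin_cases c <;> simp only [Cl] at h <;> simp [co] <;>
    simp at h
  · obtain ⟨rfl, rfl, _⟩ := h
    ring
  · obtain ⟨rfl, rfl, _⟩ := h
    push_cast
    ring
  · obtain ⟨rfl, rfl, _⟩ := h
    push_cast
    ring
  · obtain ⟨rfl, h7, _⟩ := h
    have h8 : (m : ℤ) = n + s := by exact_mod_cast h7.symm
    rw [h8]
    ring
  · obtain ⟨rfl, rfl, _⟩ := h
    push_cast
    ring
  · obtain ⟨rfl, rfl, _⟩ := h
    push_cast
    ring

theorem cl_size {A : ℕ} {v : ℕ × ℕ} (hv : Gen A v) {X s : ℕ} {c : Fin 6} (h : Cl v X s c) :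
    2 * (s * X ^ 3) ≤ 9 * A := by
  have h1 := cl_area hv h
  have h2 : 2 * ((s : ℤ) * (X : ℤ) ^ 3) ≤ 9 * (A : ℤ) := by
    have hs0 : (0 : ℤ) ≤ s := by positivity
    have hX0 : (0 : ℤ) ≤ X := by positivity
    have h3 : (8 : ℤ) * X ^ 2 ≤
        9 * ((co c).1 * (X : ℤ) ^ 2 + (co c).2.1 * X * s + (co c).2.2 * (s : ℤ) ^ 2) := by
      fin_cases c <;> simp only [Cl] at h <;> simp [co] <;> simp at h <;>
        obtain ⟨_, _, h⟩ := h <;> zify at h
      · nlinarith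
      · nlinarith [mul_nonneg hs0 hX0]
      · nlinarith [mul_nonneg hs0 hX0, mul_nonneg (sub_nonneg.mpr h) hX0,
          mul_nonneg (sub_nonneg.mpr h) hs0, mul_nonneg (sub_nonneg.mpr h) (sub_nonneg.mpr h)]
      · nlinarith [mul_nonneg hs0 hX0, mul_nonneg (sub_nonneg.mpr h) hX0,
          mul_nonneg (sub_nonneg.mpr h) hs0, mul_nonneg (sub_nonneg.mpr h) (sub_nonneg.mpr h)]
      · nlinarith [mul_nonneg hs0 hX0]
      · nlinarith
    have h4 := mul_le_mul_of_nonneg_left h3 (mul_nonneg hs0 hX0)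
    nlinarith
  exact_mod_cast h2

/-- every triangle has a class -/
theorem exists_cl {A : ℕ} {v : ℕ × ℕ} (hv : Gen A v) {i : Fin 4} (hi : i ≠ si v) :
    ∃ c : Fin 6, Cl v (part v i) (small v) c := by
  obtain ⟨h1, h2, _⟩ := hv
  obtain ⟨m, n⟩ := v
  simp only at h1 h2
  unfold si at hi
  unfold small
  simp only at hi
  split_ifs at hi ⊢ with h
  · fin_cases i
    · refine ⟨0, ?_⟩
      simp [Cl, part]
      omega
    · exact absurd rfl hi
    · refine ⟨1, ?_⟩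
      simp [Cl, part]
      omega
    · refine ⟨2, ?_⟩
      simp [Cl, part]
      omega
  · fin_cases i
    · refine ⟨3, ?_⟩
      simp [Cl, part]
      omega
    · refine ⟨4, ?_⟩
      simp [Cl, part]
      omega
    · exact absurd rfl hi
    · refine ⟨5, ?_⟩
      simp [Cl, part]
      omega

theorem part_cop {A : ℕ} {v : ℕ × ℕ} (hv : Gen A v) {i j : Fin 4} (hij : i ≠ j) :
    Nat.Coprime (part v i) (part v j) := by
  by_contra h
  obtain ⟨p, hp, hpd⟩ := Nat.exists_prime_and_dvd h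
  exact hij (part_unique hv hp (hpd.trans (Nat.gcd_dvd_left _ _)) (hpd.trans (Nat.gcd_dvd_right _ _)))

/-- the data of a triangle of which a part is divisible by a large `q` -/
theorem data {A q : ℕ} {v : ℕ × ℕ} (hv : Gen A v) (hbig : 1215 * A ^ 2 < q ^ 7) {i : Fin 4}
    (h2 : q ∣ part v i) :
    ∃ (s k : ℕ) (c : Fin 6), 0 < s ∧ 0 < k ∧ Nat.Coprime s k ∧ Cl v (q * k) s c ∧
      60 * (s ^ 2 * k ^ 6) < q := by
  have hA := area_pos hv
  have hq0 : 0 < q := by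
    rcases Nat.eq_zero_or_pos q with h0 | h0
    · rw [h0] at hbig
      omega
    · exact h0
  have hs0 := small_pos hv
  have h3 : small v < q := by
    by_contra h
    push Not at h
    have h4 := small_pow_four hv
    have h5 : q ^ 7 ≤ A ^ 2 := by
      calc q ^ 7 ≤ q ^ 8 := Nat.pow_le_pow_right hq0 (by norm_num)
        _ ≤ small v ^ 8 := Nat.pow_le_pow_left h 8
        _ = (small v ^ 4) ^ 2 := by ring
        _ ≤ A ^ 2 := Nat.pow_le_pow_left h4 2
    omega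
  have h4 : i ≠ si v := by
    intro h
    rw [h, part_si] at h2
    exact absurd (Nat.le_of_dvd hs0 h2) (by omega)
  obtain ⟨c, h5⟩ := exists_cl hv h4
  obtain ⟨k, hk⟩ := h2
  have h6 : Nat.Coprime (small v) (part v i) := by
    rw [← part_si]
    exact part_cop hv h4.symm
  have h7 := part_pos hv i
  rw [hk] at h5 h6 h7
  have hk0 : 0 < k := by
    rcases Nat.eq_zero_or_pos k with h0 | h0
    · rw [h0, mul_zero] at h7
      omega
    · exact h0
  refine ⟨small v, k, c, hs0, hk0, h6.coprime_mul_left_right, h5, ?_⟩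
  have h8 := cl_size hv h5
  have h9 : 4 * (q ^ 6 * (small v ^ 2 * k ^ 6)) ≤ 81 * A ^ 2 := by
    calc 4 * (q ^ 6 * (small v ^ 2 * k ^ 6)) = (2 * (small v * (q * k) ^ 3)) ^ 2 := by ring
      _ ≤ (9 * A) ^ 2 := Nat.pow_le_pow_left h8 2
      _ = 81 * A ^ 2 := by ring
  have h10 : q ^ 6 * (60 * (small v ^ 2 * k ^ 6)) < q ^ 6 * q := by
    have h11 : q ^ 7 = q ^ 6 * q := by ring
    have h12 : q ^ 6 * (60 * (small v ^ 2 * k ^ 6)) = 15 * (4 * (q ^ 6 * (small v ^ 2 * k ^ 6))) := by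
      ring
    rw [h12, ← h11]
    linarith
  exact Nat.lt_of_mul_lt_mul_left h10

end Pool.Agent.H83.UQ
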