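import Pool.Agent.H83.UQ.Main

/-!
MP_912b3a_nt: a family of areas `A` of two primitive Pythagorean triangles, each with a part
divisible by a divisor `q` of `A` with `gcd (q, A / q) = 1` and `q ^ 7 > 12 A ^ 2`.
-/

namespace Pool.Agent.H83.UQ

open Pool.Agent.H99.PT Pool.Agent.H83.LP

/-- the divisor -/
def fq (y : ℕ) : ℕ := 12 * y ^ 2 + 6 * y + 1

/-- the cofactor -/
def fb (y : ℕ) : ℕ := y * (2 * y + 1) * (3 * y + 1) * (4 * y + 1) * (6 * y + 1)

theorem gen_one {y : ℕ} (hy : 0 < y) :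
    Gen (fq y * fb y) ((2 * y + 1) * (3 * y + 1), y * (6 * y + 1)) := by
  refine ⟨by positivity, ?_, ?_, ?_, ?_⟩
  · simp only
    nlinarith
  · have h1 : (2 * y + 1) * (3 * y + 1) = y * (6 * y + 1) + (4 * y + 1) := by ring
    simp only
    rw [h1]
    have h2 : Nat.Coprime (4 * y + 1) (y * (6 * y + 1)) := by
      apply Nat.Coprime.mul_right
      · simp
      · have h3 : 6 * y + 1 = 2 * y + (4 * y + 1) := by ring
        rw [h3, Nat.coprime_add_self_right]
        apply Nat.Coprime.mul_right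
        · have h4 : 4 * y + 1 = 1 + 2 * (2 * y) := by ring
          rw [h4, Nat.coprime_add_mul_left_left]
          exact Nat.coprime_one_left _
        · simp
    exact Nat.coprime_self_add_left.mpr h2
  · unfold Nat.ModEq
    simp only
    have h1 : (2 * y + 1) * (3 * y + 1) = y * (6 * y + 1) + (4 * y + 1) := by ring
    rw [h1]
    omega
  · simp only
    rw [Nat.sq_sub_sq]
    have h1 : (2 * y + 1) * (3 * y + 1) - y * (6 * y + 1) = 4 * y + 1 := by
      have : (2 * y + 1) * (3 * y + 1) = 4 * y + 1 + y * (6 * y + 1) := by ring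
      omega
    rw [h1, fq, fb]
    ring

theorem gen_two {y : ℕ} (hy : 0 < y) :
    Gen (fq y * fb y) ((3 * y + 1) * (4 * y + 1), y) := by
  refine ⟨hy, ?_, ?_, ?_, ?_⟩
  · simp only
    nlinarith
  · simp only
    apply Nat.Coprime.mul_left <;> simp
  · unfold Nat.ModEq
    simp only
    have h1 : (3 * y + 1) * (4 * y + 1) = y + 2 * (6 * y ^ 2 + 3 * y) + 1 := by ring
    rw [h1]
    omega
  · simp only
    rw [Nat.sq_sub_sq]
    have h1 : (3 * y + 1) * (4 * y + 1) - y = 12 * y ^ 2 + 6 * y + 1 := by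
      have : (3 * y + 1) * (4 * y + 1) = 12 * y ^ 2 + 6 * y + 1 + y := by ring
      omega
    rw [h1, fq, fb]
    ring

theorem part_one (y : ℕ) : part ((2 * y + 1) * (3 * y + 1), y * (6 * y + 1)) 3 = fq y := by
  simp [part, fq]
  ring

theorem part_two (y : ℕ) : part ((3 * y + 1) * (4 * y + 1), y) 2 = fq y := by
  simp [part, fq]
  have : (3 * y + 1) * (4 * y + 1) = 12 * y ^ 2 + 6 * y + 1 + y := by ring
  omega

theorem fam_cop {y : ℕ} (hy : 0 < y) : Nat.Coprime (fq y) (fb y) := by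
  have h := gen_one hy
  have h1 := prod_parts h
  rw [part_one] at h1
  have h2 : part ((2 * y + 1) * (3 * y + 1), y * (6 * y + 1)) 0 *
      part ((2 * y + 1) * (3 * y + 1), y * (6 * y + 1)) 1 *
      part ((2 * y + 1) * (3 * y + 1), y * (6 * y + 1)) 2 = fb y := by
    apply Nat.eq_of_mul_eq_mul_left (show 0 < fq y by unfold fq; positivity)
    rw [← h1]
    ring
  rw [← h2, ← part_one]
  exact Nat.Coprime.mul_right (Nat.Coprime.mul_right (part_cop h (by decide))
    (part_cop h (by decide))) (part_cop h (by decide))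

theorem fam_big (y : ℕ) : 12 * (fq y * fb y) ^ 2 < fq y ^ 7 := by
  have h : 12 * fb y ^ 2 < fq y ^ 5 := by
    have : fq y ^ 5 = 12 * fb y ^ 2 + (1 + 30 * y + 408 * y ^ 2 + 3240 * y ^ 3 + 16260 * y ^ 4 +
        52416 * y ^ 5 + 105504 * y ^ 6 + 120960 * y ^ 7 + 60480 * y ^ 8) := by
      unfold fq fb
      ring
    omega
  have h0 : 0 < fq y ^ 2 := by
    unfold fq
    positivity
  calc 12 * (fq y * fb y) ^ 2 = fq y ^ 2 * (12 * fb y ^ 2) := by ring
    _ < fq y ^ 2 * fq y ^ 5 := Nat.mul_lt_mul_of_pos_left h h0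
    _ = fq y ^ 7 := by ring

theorem fam_large {y : ℕ} (hy : 0 < y) : y < fq y * fb y := by
  have h1 : 1 ≤ fb y := by
    have : 0 < fb y := by
      unfold fb
      positivity
    omega
  have h2 : y < fq y := by
    unfold fq
    nlinarith
  calc y < fq y * 1 := by omega
    _ ≤ fq y * fb y := Nat.mul_le_mul_left _ h1

theorem fam_ne {y : ℕ} (hy : 0 < y) :
    ((2 * y + 1) * (3 * y + 1), y * (6 * y + 1)) ≠ ((3 * y + 1) * (4 * y + 1), y) := by
  intro h
  have h1 := (Prod.mk.injEq _ _ _ _).mp h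
  have h2 := h1.2
  nlinarith

end Pool.Agent.H83.UQ
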