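import Mathlib

/-!
MP_912b3a_nt: a large prime power `q` and the area of a primitive Pythagorean triangle.
The pairs of triangles where the part divisible by `q` is `m` or `m + n` in different positions.
-/

namespace Pool.Agent.H83.UQ

theorem mix {q s k s' k' c a b : ℕ} (hs : 0 < s) (hk : 0 < k) (hk' : 0 < k')
    (hcop' : Nat.Coprime s' k') (h1 : s * k ^ 3 = c * (s' * k' ^ 3))
    (h2 : a * q * (s' ^ 2 * k' ^ 2) = b * (s' ^ 3 * k') + s ^ 3 * k)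
    (H : 60 * (s ^ 2 * k ^ 6) < q) :
    ∃ x y d u : ℕ, 0 < x ∧ 0 < y ∧ 0 < d ∧ 0 < u ∧ Nat.Coprime x y ∧
      a * c * q * x ^ 5 * d * y = u * (b * x ^ 8 + c ^ 3 * y ^ 8) ∧
      60 * (y ^ 6 * u ^ 2 * d ^ 6 * x ^ 6) < q ∧ Nat.gcd y u ∣ c := by
  have hd : 0 < Nat.gcd k k' := Nat.gcd_pos_of_pos_left _ hk
  obtain ⟨x, y, hxy, hkx, hky⟩ := Nat.exists_coprime k k'
  generalize Nat.gcd k k' = d at hd hkx hky
  subst hkx hky
  have hx : 0 < x := Nat.pos_of_mul_pos_right hk |> fun h => by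
    rcases Nat.eq_zero_or_pos x with h0 | h0
    · subst h0; simp at hk
    · exact h0
  have hy : 0 < y := by
    rcases Nat.eq_zero_or_pos y with h0 | h0
    · subst h0; simp at hk'
    · exact h0
  have h3 : s * x ^ 3 = c * s' * y ^ 3 := by
    apply Nat.eq_of_mul_eq_mul_right (show 0 < d ^ 3 by positivity)
    linarith [h1, (by ring : s * (x * d) ^ 3 = s * x ^ 3 * d ^ 3),
      (by ring : c * (s' * (y * d) ^ 3) = c * s' * y ^ 3 * d ^ 3)]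
  have h4 : y ^ 3 ∣ s := by
    have h5 : y ^ 3 ∣ s * x ^ 3 := by
      rw [h3]
      exact Dvd.intro_left _ rfl
    exact (Nat.Coprime.dvd_of_dvd_mul_right (Nat.Coprime.pow 3 3 hxy.symm) h5)
  obtain ⟨u, rfl⟩ := h4
  have hu : 0 < u := by
    rcases Nat.eq_zero_or_pos u with h0 | h0
    · subst h0; simp at hs
    · exact h0
  have h5 : u * x ^ 3 = c * s' := by
    apply Nat.eq_of_mul_eq_mul_right (show 0 < y ^ 3 by positivity)
    linarith [h3, (by ring : y ^ 3 * u * x ^ 3 = u * x ^ 3 * y ^ 3)]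
  refine ⟨x, y, d, u, hx, hy, hd, hu, hxy, ?_, ?_, ?_⟩
  · apply Nat.eq_of_mul_eq_mul_left (show 0 < u ^ 2 * x * y * d by positivity)
    calc u ^ 2 * x * y * d * (a * c * q * x ^ 5 * d * y)
        = c * (a * q * ((u * x ^ 3) ^ 2 * (y * d) ^ 2)) := by ring
      _ = c * (a * q * ((c * s') ^ 2 * (y * d) ^ 2)) := by rw [h5]
      _ = c ^ 3 * (a * q * (s' ^ 2 * (y * d) ^ 2)) := by ring
      _ = c ^ 3 * (b * (s' ^ 3 * (y * d)) + (y ^ 3 * u) ^ 3 * (x * d)) := by rw [h2]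
      _ = b * ((c * s') ^ 3 * (y * d)) + c ^ 3 * ((y ^ 3 * u) ^ 3 * (x * d)) := by ring
      _ = b * ((u * x ^ 3) ^ 3 * (y * d)) + c ^ 3 * ((y ^ 3 * u) ^ 3 * (x * d)) := by rw [h5]
      _ = u ^ 2 * x * y * d * (u * (b * x ^ 8 + c ^ 3 * y ^ 8)) := by ring
  · calc 60 * (y ^ 6 * u ^ 2 * d ^ 6 * x ^ 6) = 60 * ((y ^ 3 * u) ^ 2 * (x * d) ^ 6) := by ring
      _ < q := H
  · have h6 : Nat.Coprime (Nat.gcd y u) s' :=
      Nat.Coprime.coprime_dvd_left ((Nat.gcd_dvd_left y u).trans (Dvd.intro _ rfl)) hcop'.symm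
    have h7 : Nat.gcd y u ∣ c * s' := by
      rw [← h5]
      exact (Nat.gcd_dvd_right y u).trans (Dvd.intro _ rfl)
    exact h6.dvd_of_dvd_mul_right h7

theorem fin {q x y d u c A b e : ℕ} (hx : 0 < x) (hy : 0 < y) (hd : 0 < d) (hu : 0 < u)
    (hA : 0 < A) (hb : 0 < b) (hc : 0 < c) (hxy : Nat.Coprime x y)
    (h : A * q * x ^ 5 * d * y = u * (b * x ^ 8 + e * y ^ 8))
    (H : 60 * (y ^ 6 * u ^ 2 * d ^ 6 * x ^ 6) < q) (hg : Nat.gcd y u ∣ c)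
    (hnum : b + e * (c * b) ≤ 60 * A) : False := by
  have h1 : y ∣ u * b * x ^ 8 := by
    have h2 : y ∣ u * b * x ^ 8 + u * e * y ^ 8 := by
      have h3 : u * b * x ^ 8 + u * e * y ^ 8 = A * q * x ^ 5 * d * y := by rw [h]; ring
      rw [h3]
      exact Dvd.intro_left _ rfl
    have h4 : y ∣ u * e * y ^ 8 := Dvd.intro_left (u * e * y ^ 7) (by ring)
    exact (Nat.dvd_add_left h4).mp h2
  have h2 : y ∣ u * b := (Nat.Coprime.pow_right 8 hxy.symm).dvd_of_dvd_mul_right h1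
  have h3 : y ∣ c * b := by
    have h4 : y ∣ Nat.gcd (y * b) (u * b) := Nat.dvd_gcd (Dvd.intro _ rfl) h2
    rw [Nat.gcd_mul_right] at h4
    exact h4.trans (Nat.mul_dvd_mul_right hg b)
  have h4 : y ≤ c * b := Nat.le_of_dvd (by positivity) h3
  have h5 : 0 < A * x ^ 5 * d * y := by positivity
  have h6 : 60 * A * (y ^ 7 * u ^ 2 * d ^ 7 * x ^ 11) < u * (b * x ^ 8 + e * y ^ 8) := by
    rw [← h]
    calc 60 * A * (y ^ 7 * u ^ 2 * d ^ 7 * x ^ 11)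
        = A * x ^ 5 * d * y * (60 * (y ^ 6 * u ^ 2 * d ^ 6 * x ^ 6)) := by ring
      _ < A * x ^ 5 * d * y * q := Nat.mul_lt_mul_of_pos_left H h5
      _ = A * q * x ^ 5 * d * y := by ring
  have h7 : x ^ 8 ≤ y ^ 7 * x ^ 11 := by
    calc x ^ 8 = 1 * x ^ 8 := (one_mul _).symm
      _ ≤ y ^ 7 * x ^ 11 := Nat.mul_le_mul (Nat.one_le_pow _ _ hy)
        (Nat.pow_le_pow_right hx (by norm_num))
  have h8 : y ^ 8 ≤ (c * b) * (y ^ 7 * x ^ 11) := by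
    calc y ^ 8 = y * (y ^ 7 * 1) := by ring
      _ ≤ (c * b) * (y ^ 7 * x ^ 11) := Nat.mul_le_mul h4
        (Nat.mul_le_mul_left _ (Nat.one_le_pow _ _ hx))
  have h9 : u * (b * x ^ 8 + e * y ^ 8) ≤ 60 * A * (y ^ 7 * u ^ 2 * d ^ 7 * x ^ 11) := by
    calc u * (b * x ^ 8 + e * y ^ 8)
        ≤ u * (b * (y ^ 7 * x ^ 11) + e * ((c * b) * (y ^ 7 * x ^ 11))) :=
          Nat.mul_le_mul_left _ (Nat.add_le_add (Nat.mul_le_mul_left _ h7)
            (Nat.mul_le_mul_left _ h8))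
      _ = (b + e * (c * b)) * (y ^ 7 * (u * 1) * 1 * x ^ 11) := by ring
      _ ≤ 60 * A * (y ^ 7 * (u * u) * d ^ 7 * x ^ 11) := by
          gcongr
          · exact hu
          · exact Nat.one_le_pow _ _ hd
      _ = 60 * A * (y ^ 7 * u ^ 2 * d ^ 7 * x ^ 11) := by ring
  omega

/-- the four mixed pairs of classes -/
theorem mixed {q s k s' k' : ℕ} (hs : 0 < s) (hk : 0 < k) (hk' : 0 < k')
    (hcop' : Nat.Coprime s' k') (H : 60 * (s ^ 2 * k ^ 6) < q)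
    (h : (s * k ^ 3 = s' * k' ^ 3 ∧ 3 * q * (s' ^ 2 * k' ^ 2) = 2 * (s' ^ 3 * k') + s ^ 3 * k) ∨
      (s * k ^ 3 = 2 * (s' * k' ^ 3) ∧ 3 * q * (s' ^ 2 * k' ^ 2) = s' ^ 3 * k' + s ^ 3 * k) ∨
      (s * k ^ 3 = 4 * (s' * k' ^ 3) ∧
        12 * q * (s' ^ 2 * k' ^ 2) = 8 * (s' ^ 3 * k') + s ^ 3 * k) ∨
      (s * k ^ 3 = 8 * (s' * k' ^ 3) ∧
        12 * q * (s' ^ 2 * k' ^ 2) = 4 * (s' ^ 3 * k') + s ^ 3 * k)) : False := by
  rcases h with ⟨h1, h2⟩ | ⟨h1, h2⟩ | ⟨h1, h2⟩ | ⟨h1, h2⟩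
  · obtain ⟨x, y, d, u, hx, hy, hd, hu, hxy, h3, h4, h5⟩ :=
      mix (c := 1) (a := 3) (b := 2) hs hk hk' hcop' (by rw [h1, one_mul]) h2 H
    exact fin (c := 1) (A := 3) (b := 2) (e := 1) hx hy hd hu (by norm_num) (by norm_num)
      (by norm_num) hxy (by linarith) h4 h5 (by norm_num)
  · obtain ⟨x, y, d, u, hx, hy, hd, hu, hxy, h3, h4, h5⟩ :=
      mix (c := 2) (a := 3) (b := 1) hs hk hk' hcop' h1 (by rw [h2, one_mul]) H
    exact fin (c := 2) (A := 6) (b := 1) (e := 8) hx hy hd hu (by norm_num) (by norm_num)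
      (by norm_num) hxy (by linarith) h4 h5 (by norm_num)
  · obtain ⟨x, y, d, u, hx, hy, hd, hu, hxy, h3, h4, h5⟩ :=
      mix (c := 4) (a := 12) (b := 8) hs hk hk' hcop' h1 h2 H
    exact fin (c := 4) (A := 6) (b := 1) (e := 8) hx hy hd hu (by norm_num) (by norm_num)
      (by norm_num) hxy (by linarith) h4 h5 (by norm_num)
  · obtain ⟨x, y, d, u, hx, hy, hd, hu, hxy, h3, h4, h5⟩ :=
      mix (c := 8) (a := 12) (b := 4) hs hk hk' hcop' h1 h2 H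
    exact fin (c := 8) (A := 24) (b := 1) (e := 128) hx hy hd hu (by norm_num) (by norm_num)
      (by norm_num) hxy (by linarith) h4 h5 (by norm_num)

end Pool.Agent.H83.UQ
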