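import Pool.Agent.H83.UQ.Cls
import Pool.Agent.H83.UQ.Mix

/-!
MP_912b3a_nt: an area which is exactly divisible by a prime power `q` with `q ^ 7 > 1215 A ^ 2` is
the area of at most one primitive Pythagorean triangle.
-/

namespace Pool.Agent.H83.UQ

open Pool.Agent.H99.PT Pool.Agent.H83.LP

/-- bounds for the small part -/
def bd : Fin 6 → ℤ := ![2, 1, 3, 2, 1, 3]

theorem cl_bd {v : ℕ × ℕ} {X s : ℕ} {c : Fin 6} (h : Cl v X s c) : bd c * (s : ℤ) ≤ X := by
  fin_cases c <;> simp [Cl] at h <;> simp [bd] <;> omega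

theorem low_pos {q s k : ℤ} {c : Fin 6} (hq : 0 < q) (hs : 0 < s) (hk : 0 < k)
    (hc : c = 1 ∨ c = 4) :
    0 < (co c).2.1 * q * (s ^ 2 * k ^ 2) + (co c).2.2 * (s ^ 3 * k) := by
  rcases hc with rfl | rfl <;> simp [co] <;> positivity

theorem low_neg {q s k : ℤ} {c : Fin 6} (hs : 0 < s) (hk : 0 < k)
    (hc : ¬ (c = 1 ∨ c = 4)) (hb : bd c * s ≤ q * k) :
    (co c).2.1 * q * (s ^ 2 * k ^ 2) + (co c).2.2 * (s ^ 3 * k) < 0 := by
  have h0 : 0 < s ^ 3 * k := by positivity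
  have h1 : 0 < s ^ 2 * k := by positivity
  fin_cases c
  · simp [co]
    linarith
  · exact absurd (Or.inl rfl) hc
  · simp [co, bd] at hb ⊢
    nlinarith [mul_le_mul_of_nonneg_left hb h1.le]
  · simp [co, bd] at hb ⊢
    nlinarith [mul_le_mul_of_nonneg_left hb h1.le]
  · exact absurd (Or.inr rfl) hc
  · simp [co]
    linarith

theorem co_le (c : Fin 6) : |(co c).2.1| ≤ 12 ∧ |(co c).2.2| ≤ 8 ∧ (co c).1 ≠ 0 := by
  fin_cases c <;> simp [co]

theorem core {q : ℤ} {s k s' k' : ℤ} {c c' : Fin 6} (hq : 0 < q) (hs : 0 < s) (hk : 0 < k)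
    (hs' : 0 < s') (hk' : 0 < k') (hb : bd c * s ≤ q * k) (hb' : bd c' * s' ≤ q * k')
    (h1 : (co c).1 * (s * k ^ 3) = (co c').1 * (s' * k' ^ 3))
    (h2 : (co c).2.1 * q * (s ^ 2 * k ^ 2) + (co c).2.2 * (s ^ 3 * k) =
        (co c').2.1 * q * (s' ^ 2 * k' ^ 2) + (co c').2.2 * (s' ^ 3 * k')) :
    (c = c' → s = s' ∧ k = k') ∧ (c < c' →
      ((s * k ^ 3 = s' * k' ^ 3 ∧ 3 * q * (s' ^ 2 * k' ^ 2) = 2 * (s' ^ 3 * k') + s ^ 3 * k) ∨
      (s * k ^ 3 = 2 * (s' * k' ^ 3) ∧ 3 * q * (s' ^ 2 * k' ^ 2) = s' ^ 3 * k' + s ^ 3 * k)) ∨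
      ((s' * k' ^ 3 = 4 * (s * k ^ 3) ∧
        12 * q * (s ^ 2 * k ^ 2) = 8 * (s ^ 3 * k) + s' ^ 3 * k') ∨
      (s' * k' ^ 3 = 8 * (s * k ^ 3) ∧
        12 * q * (s ^ 2 * k ^ 2) = 4 * (s ^ 3 * k) + s' ^ 3 * k'))) := by
  have hqk : 0 < q * k := by positivity
  have hqk' : 0 < q * k' := by positivity
  have hkk : 0 < k * k' := by positivity
  have hqkk : 0 < q * (k * k') := by positivity
  have hsk : 0 < s * k' := by positivity
  have hsk' : 0 < s' * k := by positivity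
  have m1 := mul_le_mul_of_nonneg_right hb hk'.le
  have m2 := mul_le_mul_of_nonneg_right hb' hk.le
  constructor
  · rintro rfl
    refine same hs hk hs' hk' (co_le c).2.2 h1 h2 ?_
    intro h0
    fin_cases c <;> simp [co, bd] at m1 m2 h0 <;> linarith
  · intro hlt
    by_cases hc : c = 1 ∨ c = 4
    · by_cases hc' : c' = 1 ∨ c' = 4
      · have : c = 1 ∧ c' = 4 := by
          rcases hc with rfl | rfl <;> rcases hc' with rfl | rfl
          · exact absurd hlt (lt_irrefl _)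
          · exact ⟨rfl, rfl⟩
          · exact absurd hlt (by decide)
          · exact absurd hlt (lt_irrefl _)
        obtain ⟨rfl, rfl⟩ := this
        exfalso
        simp [co] at h1 h2
        exact dbl (q := q) (β := 12) hs hk hs' hk' (by linarith) h2 (by positivity)
      · have h3 := low_pos (c := c) hq hs hk hc
        have h4 := low_neg (c := c') hs' hk' hc' hb'
        linarith
    · by_cases hc' : c' = 1 ∨ c' = 4
      · have h3 := low_pos (c := c') hq hs' hk' hc'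
        have h4 := low_neg (c := c) hs hk hc hb
        linarith
      · fin_cases c <;> fin_cases c' <;> simp at hc hc' hlt <;> simp [co, bd] at h1 h2 m1 m2
        · exact Or.inl (Or.inl ⟨by linarith, by linarith⟩)
        · exact Or.inl (Or.inr ⟨by linarith, by linarith⟩)
        · exact (quad hs hk hk' h1 h2).elim
        · refine (dbl (q := q) (β := -12) hs hk hs' hk' (by linarith) (by linarith) ?_).elim
          intro h0
          linarith
        · exact Or.inr (Or.inl ⟨by linarith, by linarith⟩)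
        · exact Or.inr (Or.inr ⟨by linarith, by linarith⟩)

theorem core_nat {A q : ℕ} {v w : ℕ × ℕ} (hv : Gen A v) (hw : Gen A w) {s k s' k' : ℕ}
    {c c' : Fin 6} (hs : 0 < s) (hk : 0 < k) (hs' : 0 < s') (hk' : 0 < k')
    (hcop : Nat.Coprime s k) (hcop' : Nat.Coprime s' k') (h : Cl v (q * k) s c)
    (h' : Cl w (q * k') s' c') (H : 60 * (s ^ 2 * k ^ 6) < q)
    (H' : 60 * (s' ^ 2 * k' ^ 6) < q) : (c = c' → s = s' ∧ k = k') ∧ ¬ c < c' := by
  have hq : 0 < q := by omega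
  have hqz : (0 : ℤ) < q := by exact_mod_cast hq
  have hsz : (0 : ℤ) < s := by exact_mod_cast hs
  have hkz : (0 : ℤ) < k := by exact_mod_cast hk
  have hsz' : (0 : ℤ) < s' := by exact_mod_cast hs'
  have hkz' : (0 : ℤ) < k' := by exact_mod_cast hk'
  have e := cl_area hv h
  have e' := cl_area hw h'
  have b := cl_bd h
  have b' := cl_bd h'
  push_cast at e e' b b'
  have hz : 60 * ((s : ℤ) ^ 2 * (k : ℤ) ^ 6) < q := by exact_mod_cast H
  have hz' : 60 * ((s' : ℤ) ^ 2 * (k' : ℤ) ^ 6) < q := by exact_mod_cast H'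
  have b1 : ∀ i, 1 ≤ bd i := by
    intro i
    fin_cases i <;> simp [bd]
  have b2 : (s : ℤ) ≤ q * k := by nlinarith [b1 c]
  have b2' : (s' : ℤ) ≤ q * k' := by nlinarith [b1 c']
  obtain ⟨l1, l2⟩ := lead hqz hsz hkz hsz' hkz' b2 b2' (co_le c).1 (co_le c).2.1 (co_le c').1
    (co_le c').2.1 e e' hz hz'
  obtain ⟨r1, r2⟩ := core hqz hsz hkz hsz' hkz' b b' l1 l2
  constructor
  · intro hcc
    have := r1 hcc
    exact_mod_cast this
  · intro hlt
    rcases r2 hlt with r | r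
    · refine mixed hs hk hk' hcop' H ?_
      rcases r with r | r
      · left
        exact_mod_cast r
      · right
        left
        exact_mod_cast r
    · refine mixed hs' hk' hk hcop H' ?_
      right
      right
      exact_mod_cast r

/-- at most one triangle of area `A` has a part divisible by `q` -/
theorem unique {A q : ℕ} (hbig : 1215 * A ^ 2 < q ^ 7) {v w : ℕ × ℕ} (hv : Gen A v)
    (hw : Gen A w) {i j : Fin 4} (hi : q ∣ part v i) (hj : q ∣ part w j) : v = w := by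
  obtain ⟨s, k, c, hs, hk, hcop, h, H⟩ := data hv hbig hi
  obtain ⟨s', k', c', hs', hk', hcop', h', H'⟩ := data hw hbig hj
  obtain ⟨r1, r2⟩ := core_nat hv hw hs hk hs' hk' hcop hcop' h h' H H'
  obtain ⟨_, r3⟩ := core_nat hw hv hs' hk' hs hk hcop' hcop h' h H' H
  have hcc : c = c' := le_antisymm (not_lt.mp r3) (not_lt.mp r2)
  subst hcc
  obtain ⟨rfl, rfl⟩ := r1 rfl
  exact cl_inj h h'

/-- a prime power which exactly divides the area divides one part -/
theorem dvd_part {A q : ℕ} {v : ℕ × ℕ} (hv : Gen A v) (hq : IsPrimePow q) (hqA : q ∣ A)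
    (hc : Nat.Coprime q (A / q)) : ∃ i : Fin 4, q ∣ part v i := by
  have hA := area_pos hv
  obtain ⟨p, e, hp, he, hpe⟩ := (isPrimePow_nat_iff q).mp hq
  have hpq : p ∈ q.primeFactors := by
    rw [← hpe, Nat.primeFactors_pow p he.ne', hp.primeFactors]
    exact Finset.mem_singleton_self p
  have hpA : p ∣ A := (Nat.dvd_of_mem_primeFactors hpq).trans hqA
  have h1 : q = p ^ A.factorization p := by
    rw [fac_unitary hA hqA hc hpq, ← hpe, hp.factorization_pow, Finsupp.single_eq_same]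
  refine ⟨letter v p, ?_⟩
  rw [h1]
  exact letter_pow hv hp hpA

/-- the exponent: `q ≥ 3 A ^ (2/7)` -/
theorem big_of {A q : ℕ} (hA : 0 < A) (h : 3 * (A : ℝ) ^ (2 / 7 : ℝ) ≤ q) :
    1215 * A ^ 2 < q ^ 7 := by
  have hA' : (0 : ℝ) < A := by exact_mod_cast hA
  have h1 : (3 * (A : ℝ) ^ (2 / 7 : ℝ)) ^ 7 ≤ (q : ℝ) ^ 7 :=
    pow_le_pow_left₀ (by positivity) h 7
  have h2 : (3 * (A : ℝ) ^ (2 / 7 : ℝ)) ^ 7 = 2187 * (A : ℝ) ^ 2 := by
    rw [mul_pow, ← Real.rpow_natCast, ← Real.rpow_natCast ((A : ℝ) ^ (2 / 7 : ℝ)),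
      ← Real.rpow_mul hA'.le]
    norm_num
  rw [h2] at h1
  have h3 : 2187 * A ^ 2 ≤ q ^ 7 := by exact_mod_cast h1
  have h4 : 0 < A ^ 2 := by positivity
  omega

end Pool.Agent.H83.UQ
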