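import Mathlib

/-!
MP_912b3a_nt: a large divisor `q` of a part and the area of a primitive Pythagorean triangle: the
mixed pairs of triangles under the sharp hypothesis on the size of `q`.
-/

namespace Pool.Agent.H83.UQ

theorem mix2 {q s k s' k' c a b : ℕ} (hs : 0 < s) (hk : 0 < k) (hk' : 0 < k')
    (hcop' : Nat.Coprime s' k') (h1 : s * k ^ 3 = c * (s' * k' ^ 3))
    (h2 : a * q * (s' ^ 2 * k' ^ 2) = b * (s' ^ 3 * k') + s ^ 3 * k) :
    ∃ x y d u : ℕ, 0 < x ∧ 0 < y ∧ 0 < d ∧ 0 < u ∧ Nat.Coprime x y ∧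
      a * c * q * x ^ 5 * d * y = u * (b * x ^ 8 + c ^ 3 * y ^ 8) ∧
      s ^ 2 * k ^ 6 = y ^ 6 * u ^ 2 * d ^ 6 * x ^ 6 ∧ Nat.gcd y u ∣ c ∧ u * x ^ 3 = c * s' ∧
      k' = y * d := by
  have hd : 0 < Nat.gcd k k' := Nat.gcd_pos_of_pos_left _ hk
  obtain ⟨x, y, hxy, hkx, hky⟩ := Nat.exists_coprime k k'
  generalize Nat.gcd k k' = d at hd hkx hky
  subst hkx hky
  have hx : 0 < x := by
    rcases Nat.eq_zero_or_pos x with h0 | h0
    · subst h0; simp at hk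
    · exact h0
  have hy : 0 < y := by
    rcases Nat.eq_zero_or_pos y with h0 | h0
    · subst h0; simp at hk'
    · exact h0
  have h3 : s * x ^ 3 = c * s' * y ^ 3 := by
    apply Nat.eq_of_mul_eq_mul_right (show 0 < d ^ 3 by positivity)
    linarith [h1, (by ring : s * (x * d) ^ 3 = s * x ^ 3 * d ^ 3),
      (by ring : c * (s' * (y * d) ^ 3) = c * s' * y ^ 3 * d ^ 3)]
  have h4 : y ^ 3 ∣ s := by
    have h5 : y ^ 3 ∣ s * x ^ 3 := by
      rw [h3]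
      exact Dvd.intro_left _ rfl
    exact (Nat.Coprime.dvd_of_dvd_mul_right (Nat.Coprime.pow 3 3 hxy.symm) h5)
  obtain ⟨u, rfl⟩ := h4
  have hu : 0 < u := by
    rcases Nat.eq_zero_or_pos u with h0 | h0
    · subst h0; simp at hs
    · exact h0
  have h5 : u * x ^ 3 = c * s' := by
    apply Nat.eq_of_mul_eq_mul_right (show 0 < y ^ 3 by positivity)
    linarith [h3, (by ring : y ^ 3 * u * x ^ 3 = u * x ^ 3 * y ^ 3)]
  refine ⟨x, y, d, u, hx, hy, hd, hu, hxy, ?_, by ring, ?_, h5, rfl⟩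
  · apply Nat.eq_of_mul_eq_mul_left (show 0 < u ^ 2 * x * y * d by positivity)
    calc u ^ 2 * x * y * d * (a * c * q * x ^ 5 * d * y)
        = c * (a * q * ((u * x ^ 3) ^ 2 * (y * d) ^ 2)) := by ring
      _ = c * (a * q * ((c * s') ^ 2 * (y * d) ^ 2)) := by rw [h5]
      _ = c ^ 3 * (a * q * (s' ^ 2 * (y * d) ^ 2)) := by ring
      _ = c ^ 3 * (b * (s' ^ 3 * (y * d)) + (y ^ 3 * u) ^ 3 * (x * d)) := by rw [h2]
      _ = b * ((c * s') ^ 3 * (y * d)) + c ^ 3 * ((y ^ 3 * u) ^ 3 * (x * d)) := by ring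
      _ = b * ((u * x ^ 3) ^ 3 * (y * d)) + c ^ 3 * ((y ^ 3 * u) ^ 3 * (x * d)) := by rw [h5]
      _ = u ^ 2 * x * y * d * (u * (b * x ^ 8 + c ^ 3 * y ^ 8)) := by ring
  · have h6 : Nat.Coprime (Nat.gcd y u) s' :=
      Nat.Coprime.coprime_dvd_left ((Nat.gcd_dvd_left y u).trans (Dvd.intro _ rfl)) hcop'.symm
    have h7 : Nat.gcd y u ∣ c * s' := by
      rw [← h5]
      exact (Nat.gcd_dvd_right y u).trans (Dvd.intro _ rfl)
    exact h6.dvd_of_dvd_mul_right h7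

theorem fin2 {q x y d u c A b e : ℕ} (hx : 0 < x) (hy : 0 < y) (hd : 0 < d) (hu : 0 < u)
    (hA : 0 < A) (hb : 0 < b) (hc : 0 < c) (hxy : Nat.Coprime x y)
    (h : A * q * x ^ 5 * d * y = u * (b * x ^ 8 + e * y ^ 8))
    (H : 12 * (y ^ 6 * u ^ 2 * d ^ 6 * x ^ 6) < q) (hg : Nat.gcd y u ∣ c)
    (hnum : b + e * (c * b) ≤ 12 * A) : False := by
  have h1 : y ∣ u * b * x ^ 8 := by
    have h2 : y ∣ u * b * x ^ 8 + u * e * y ^ 8 := by
      have h3 : u * b * x ^ 8 + u * e * y ^ 8 = A * q * x ^ 5 * d * y := by rw [h]; ring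
      rw [h3]
      exact Dvd.intro_left _ rfl
    have h4 : y ∣ u * e * y ^ 8 := Dvd.intro_left (u * e * y ^ 7) (by ring)
    exact (Nat.dvd_add_left h4).mp h2
  have h2 : y ∣ u * b := (Nat.Coprime.pow_right 8 hxy.symm).dvd_of_dvd_mul_right h1
  have h3 : y ∣ c * b := by
    have h4 : y ∣ Nat.gcd (y * b) (u * b) := Nat.dvd_gcd (Dvd.intro _ rfl) h2
    rw [Nat.gcd_mul_right] at h4
    exact h4.trans (Nat.mul_dvd_mul_right hg b)
  have h4 : y ≤ c * b := Nat.le_of_dvd (by positivity) h3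
  have h5 : 0 < A * x ^ 5 * d * y := by positivity
  have h6 : 12 * A * (y ^ 7 * u ^ 2 * d ^ 7 * x ^ 11) < u * (b * x ^ 8 + e * y ^ 8) := by
    rw [← h]
    calc 12 * A * (y ^ 7 * u ^ 2 * d ^ 7 * x ^ 11)
        = A * x ^ 5 * d * y * (12 * (y ^ 6 * u ^ 2 * d ^ 6 * x ^ 6)) := by ring
      _ < A * x ^ 5 * d * y * q := Nat.mul_lt_mul_of_pos_left H h5
      _ = A * q * x ^ 5 * d * y := by ring
  have h7 : x ^ 8 ≤ y ^ 7 * x ^ 11 := by
    calc x ^ 8 = 1 * x ^ 8 := (one_mul _).symm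
      _ ≤ y ^ 7 * x ^ 11 := Nat.mul_le_mul (Nat.one_le_pow _ _ hy)
        (Nat.pow_le_pow_right hx (by norm_num))
  have h8 : y ^ 8 ≤ (c * b) * (y ^ 7 * x ^ 11) := by
    calc y ^ 8 = y * (y ^ 7 * 1) := by ring
      _ ≤ (c * b) * (y ^ 7 * x ^ 11) := Nat.mul_le_mul h4
        (Nat.mul_le_mul_left _ (Nat.one_le_pow _ _ hx))
  have h9 : u * (b * x ^ 8 + e * y ^ 8) ≤ 12 * A * (y ^ 7 * u ^ 2 * d ^ 7 * x ^ 11) := by
    calc u * (b * x ^ 8 + e * y ^ 8)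
        ≤ u * (b * (y ^ 7 * x ^ 11) + e * ((c * b) * (y ^ 7 * x ^ 11))) :=
          Nat.mul_le_mul_left _ (Nat.add_le_add (Nat.mul_le_mul_left _ h7)
            (Nat.mul_le_mul_left _ h8))
      _ = (b + e * (c * b)) * (y ^ 7 * (u * 1) * 1 * x ^ 11) := by ring
      _ ≤ 12 * A * (y ^ 7 * (u * u) * d ^ 7 * x ^ 11) := by
          gcongr
          · exact hu
          · exact Nat.one_le_pow _ _ hd
      _ = 12 * A * (y ^ 7 * u ^ 2 * d ^ 7 * x ^ 11) := by ring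
  omega

/-- `x ^ 11 ≥ 8 x ^ 8` for `x ≥ 2` -/
theorem pow11 {x : ℕ} (hx : 2 ≤ x) : 8 * x ^ 8 ≤ x ^ 11 ∧ 256 ≤ x ^ 8 := by
  have h1 : 2 ^ 3 ≤ x ^ 3 := Nat.pow_le_pow_left hx 3
  have h2 : 2 ^ 8 ≤ x ^ 8 := Nat.pow_le_pow_left hx 8
  refine ⟨?_, by omega⟩
  calc 8 * x ^ 8 ≤ x ^ 3 * x ^ 8 := Nat.mul_le_mul_right _ (by omega)
    _ = x ^ 11 := by ring

/-- common start of the two last pairs: `y` divides `u` -/
theorem y_dvd_u {q x y d u A e : ℕ} (hxy : Nat.Coprime x y)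
    (h : A * q * x ^ 5 * d * y = u * (x ^ 8 + e * y ^ 8)) : y ∣ u := by
  have h1 : y ∣ u * x ^ 8 := by
    have h2 : y ∣ u * x ^ 8 + u * e * y ^ 8 := by
      have h3 : u * x ^ 8 + u * e * y ^ 8 = A * q * x ^ 5 * d * y := by rw [h]; ring
      rw [h3]
      exact Dvd.intro_left _ rfl
    have h4 : y ∣ u * e * y ^ 8 := Dvd.intro_left (u * e * y ^ 7) (by ring)
    exact (Nat.dvd_add_left h4).mp h2
  exact (Nat.Coprime.pow_right 8 hxy.symm).dvd_of_dvd_mul_right h1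

theorem odd_fac {x y e : ℕ} (hxy : Nat.Coprime x y) (hy : 2 ∣ y) {n : ℕ} :
    Nat.Coprime (2 ^ n) (x ^ 8 + e * y ^ 8) := by
  apply Nat.Coprime.pow_left
  rw [Nat.Prime.coprime_iff_not_dvd Nat.prime_two]
  intro h
  have h1 : 2 ∣ e * y ^ 8 := (dvd_pow hy (by norm_num)).trans (Dvd.intro_left _ rfl)
  have h2 : 2 ∣ x ^ 8 := (Nat.dvd_add_left h1).mp h
  have h3 : 2 ∣ x := Nat.Prime.dvd_of_dvd_pow Nat.prime_two h2
  have h4 := Nat.dvd_gcd h3 hy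
  rw [hxy] at h4
  omega

/-- the pair with the ratio 4 of the leading terms -/
theorem four {q x y d u s' : ℕ} (hx : 0 < x) (hy : 0 < y) (hd : 0 < d) (hu : 0 < u)
    (hxy : Nat.Coprime x y) (h : 6 * q * x ^ 5 * d * y = u * (x ^ 8 + 8 * y ^ 8))
    (H : 3 * (y ^ 6 * u ^ 2 * d ^ 6 * x ^ 6) < 4 * q) (hg : Nat.gcd y u ∣ 4)
    (hs' : u * x ^ 3 = 4 * s') (hcop : Nat.Coprime s' (y * d)) : False := by
  have h1 := y_dvd_u hxy h
  rw [Nat.gcd_eq_left h1] at hg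
  have h6 : 9 * (y ^ 7 * u * d ^ 7 * x ^ 11) < 2 * (x ^ 8 + 8 * y ^ 8) := by
    have h7 : 2 * u * (9 * (y ^ 7 * u * d ^ 7 * x ^ 11)) < 2 * u * (2 * (x ^ 8 + 8 * y ^ 8)) := by
      calc 2 * u * (9 * (y ^ 7 * u * d ^ 7 * x ^ 11))
          = 6 * x ^ 5 * d * y * (3 * (y ^ 6 * u ^ 2 * d ^ 6 * x ^ 6)) := by ring
        _ < 6 * x ^ 5 * d * y * (4 * q) := Nat.mul_lt_mul_of_pos_left H (by positivity)
        _ = 4 * (6 * q * x ^ 5 * d * y) := by ring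
        _ = 2 * u * (2 * (x ^ 8 + 8 * y ^ 8)) := by rw [h]; ring
    exact Nat.lt_of_mul_lt_mul_left h7
  have hd7 : 1 ≤ d ^ 7 := Nat.one_le_pow _ _ hd
  have hx11 : x ^ 8 ≤ x ^ 11 := Nat.pow_le_pow_right hx (by norm_num)
  have hx8 : 1 ≤ x ^ 8 := Nat.one_le_pow _ _ hx
  have h8 : 9 * (y ^ 7 * u * x ^ 11) < 2 * (x ^ 8 + 8 * y ^ 8) := by
    refine lt_of_le_of_lt ?_ h6
    calc 9 * (y ^ 7 * u * x ^ 11) = 9 * (y ^ 7 * u * 1 * x ^ 11) := by ring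
      _ ≤ 9 * (y ^ 7 * u * d ^ 7 * x ^ 11) := by gcongr
  have hy4 : y ≤ 4 := Nat.le_of_dvd (by norm_num) hg
  interval_cases y
  · -- y = 1
    rcases Nat.lt_or_ge x 2 with h2 | h2
    · have hx1 : x = 1 := by omega
      subst hx1
      norm_num at h8 hs'
      omega
    · obtain ⟨h3, h4⟩ := pow11 h2
      have h5 : 1 * x ^ 11 ≤ u * x ^ 11 := Nat.mul_le_mul_right _ hu
      norm_num at h8
      omega
  · -- y = 2
    have h9 : 4 ∣ u := by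
      have h10 : 2 ^ 2 ∣ u * (x ^ 8 + 8 * 2 ^ 8) := by
        rw [← h]
        exact Dvd.intro (3 * q * x ^ 5 * d) (by ring)
      exact (odd_fac hxy (dvd_refl 2)).dvd_of_dvd_mul_right h10
    have h10 : 4 ≤ u := Nat.le_of_dvd hu h9
    have h11 : 4 * x ^ 11 ≤ u * x ^ 11 := Nat.mul_le_mul_right _ h10
    norm_num at h8
    have h12 : 128 * u * x ^ 11 = 128 * (u * x ^ 11) := by ring
    omega
  · omega
  · -- y = 4
    have h9 : 8 ∣ u := by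
      have h10 : 2 ^ 3 ∣ u * (x ^ 8 + 8 * 4 ^ 8) := by
        rw [← h]
        exact Dvd.intro (3 * q * x ^ 5 * d) (by ring)
      exact (odd_fac hxy (by norm_num)).dvd_of_dvd_mul_right h10
    obtain ⟨t, ht⟩ := h9
    have h10 : s' = 2 * (t * x ^ 3) := by
      apply Nat.eq_of_mul_eq_mul_left (show 0 < 4 by norm_num)
      rw [← hs', ht]
      ring
    have h11 : 2 ∣ Nat.gcd s' (4 * d) := Nat.dvd_gcd ⟨_, h10⟩ ⟨2 * d, by ring⟩
    rw [hcop] at h11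
    omega

/-- the pair with the ratio 8 of the leading terms -/
theorem eight {q x y d u s' : ℕ} (hx : 0 < x) (hy : 0 < y) (hd : 0 < d) (hu : 0 < u)
    (hxy : Nat.Coprime x y) (h : 24 * q * x ^ 5 * d * y = u * (x ^ 8 + 128 * y ^ 8))
    (H : 3 * (y ^ 6 * u ^ 2 * d ^ 6 * x ^ 6) < 4 * q) (hg : Nat.gcd y u ∣ 8)
    (hs' : u * x ^ 3 = 8 * s') (hcop : Nat.Coprime s' (y * d)) : False := by
  have h1 := y_dvd_u hxy h
  rw [Nat.gcd_eq_left h1] at hg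
  by_cases hev : 2 ∣ y
  · have h9 : 2 ^ 4 ∣ u := by
      have h10 : 2 ^ 4 ∣ u * (x ^ 8 + 128 * y ^ 8) := by
        rw [← h]
        obtain ⟨z, hz⟩ := hev
        rw [hz]
        exact Dvd.intro (3 * q * x ^ 5 * d * z) (by ring)
      exact (odd_fac hxy hev).dvd_of_dvd_mul_right h10
    obtain ⟨t, ht⟩ := h9
    have h10 : s' = 2 * (t * x ^ 3) := by
      apply Nat.eq_of_mul_eq_mul_left (show 0 < 8 by norm_num)
      rw [← hs', ht]
      ring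
    have h11 : 2 ∣ Nat.gcd s' (y * d) := Nat.dvd_gcd ⟨_, h10⟩ (hev.trans (Dvd.intro _ rfl))
    rw [hcop] at h11
    omega
  · have hy1 : y = 1 := by
      have hy8 : y ≤ 8 := Nat.le_of_dvd (by norm_num) hg
      interval_cases y <;> omega
    subst hy1
    have h6 : 18 * (u * d ^ 7 * x ^ 11) < x ^ 8 + 128 := by
      have h7 : 4 * u * (18 * (u * d ^ 7 * x ^ 11)) < 4 * u * (x ^ 8 + 128) := by
        calc 4 * u * (18 * (u * d ^ 7 * x ^ 11))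
            = 24 * x ^ 5 * d * (3 * (1 ^ 6 * u ^ 2 * d ^ 6 * x ^ 6)) := by ring
          _ < 24 * x ^ 5 * d * (4 * q) := Nat.mul_lt_mul_of_pos_left H (by positivity)
          _ = 4 * (24 * q * x ^ 5 * d * 1) := by ring
          _ = 4 * u * (x ^ 8 + 128) := by rw [h]; ring
      exact Nat.lt_of_mul_lt_mul_left h7
    have hd7 : 1 ≤ d ^ 7 := Nat.one_le_pow _ _ hd
    have h8 : 18 * (u * x ^ 11) < x ^ 8 + 128 := by
      refine lt_of_le_of_lt ?_ h6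
      calc 18 * (u * x ^ 11) = 18 * (u * 1 * x ^ 11) := by ring
        _ ≤ 18 * (u * d ^ 7 * x ^ 11) := by gcongr
    rcases Nat.lt_or_ge x 2 with h2 | h2
    · have hx1 : x = 1 := by omega
      subst hx1
      norm_num at h8 hs'
      omega
    · obtain ⟨h3, h4⟩ := pow11 h2
      have h5 : 1 * x ^ 11 ≤ u * x ^ 11 := Nat.mul_le_mul_right _ hu
      omega

/-- the four mixed pairs of classes, sharp -/
theorem mixed2 {q s k s' k' : ℕ} (hs : 0 < s) (hk : 0 < k) (hk' : 0 < k')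
    (hcop' : Nat.Coprime s' k')
    (h : (12 * (s ^ 2 * k ^ 6) < q ∧
        ((s * k ^ 3 = s' * k' ^ 3 ∧ 3 * q * (s' ^ 2 * k' ^ 2) = 2 * (s' ^ 3 * k') + s ^ 3 * k) ∨
        (s * k ^ 3 = 2 * (s' * k' ^ 3) ∧ 3 * q * (s' ^ 2 * k' ^ 2) = s' ^ 3 * k' + s ^ 3 * k))) ∨
      (3 * (s ^ 2 * k ^ 6) < 4 * q ∧ ((s * k ^ 3 = 4 * (s' * k' ^ 3) ∧
        12 * q * (s' ^ 2 * k' ^ 2) = 8 * (s' ^ 3 * k') + s ^ 3 * k) ∨
      (s * k ^ 3 = 8 * (s' * k' ^ 3) ∧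
        12 * q * (s' ^ 2 * k' ^ 2) = 4 * (s' ^ 3 * k') + s ^ 3 * k)))) : False := by
  rcases h with ⟨H, ⟨h1, h2⟩ | ⟨h1, h2⟩⟩ | ⟨H, ⟨h1, h2⟩ | ⟨h1, h2⟩⟩
  · obtain ⟨x, y, d, u, hx, hy, hd, hu, hxy, h3, h4, h5, _⟩ :=
      mix2 (c := 1) (a := 3) (b := 2) hs hk hk' hcop' (by rw [h1, one_mul]) h2
    rw [h4] at H
    exact fin2 (c := 1) (A := 3) (b := 2) (e := 1) hx hy hd hu (by norm_num) (by norm_num)
      (by norm_num) hxy (by linarith) H h5 (by norm_num)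
  · obtain ⟨x, y, d, u, hx, hy, hd, hu, hxy, h3, h4, h5, _⟩ :=
      mix2 (c := 2) (a := 3) (b := 1) hs hk hk' hcop' h1 (by rw [h2, one_mul])
    rw [h4] at H
    exact fin2 (c := 2) (A := 6) (b := 1) (e := 8) hx hy hd hu (by norm_num) (by norm_num)
      (by norm_num) hxy (by linarith) H h5 (by norm_num)
  · obtain ⟨x, y, d, u, hx, hy, hd, hu, hxy, h3, h4, h5, h6, h7⟩ :=
      mix2 (c := 4) (a := 12) (b := 8) hs hk hk' hcop' h1 h2
    rw [h4] at H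
    rw [h7] at hcop'
    exact four hx hy hd hu hxy (by linarith) H h5 h6 hcop'
  · obtain ⟨x, y, d, u, hx, hy, hd, hu, hxy, h3, h4, h5, h6, h7⟩ :=
      mix2 (c := 8) (a := 12) (b := 4) hs hk hk' hcop' h1 h2
    rw [h4] at H
    rw [h7] at hcop'
    exact eight hx hy hd hu hxy (by linarith) H h5 h6 hcop'

end Pool.Agent.H83.UQ
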