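import Pool.Agent.H83.UQ.Main
import Pool.Agent.H83.UQ.Mi2

/-!
MP_912b3a_nt: the sharp constant: for every `ε > 0` and all large `A` at most one primitive
Pythagorean triangle of area `A` has a part divisible by `q`, if `q ^ 7 ≥ (12 + ε) A ^ 2`.
-/

namespace Pool.Agent.H83.UQ

open Pool.Agent.H99.PT Pool.Agent.H83.LP

theorem data1 {A q : ℕ} {v : ℕ × ℕ} (hv : Gen A v) (hbig : A ^ 2 < q ^ 7) {i : Fin 4}
    (h2 : q ∣ part v i) :
    ∃ (s k : ℕ) (c : Fin 6), 0 < s ∧ 0 < k ∧ Nat.Coprime s k ∧ Cl v (q * k) s c ∧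
      4 * (q ^ 6 * (s ^ 2 * k ^ 6)) ≤ 81 * A ^ 2 := by
  have hq0 : 0 < q := by
    rcases Nat.eq_zero_or_pos q with h0 | h0
    · rw [h0] at hbig
      omega
    · exact h0
  have hs0 := small_pos hv
  have h3 : small v < q := by
    by_contra h
    push Not at h
    have h4 := small_pow_four hv
    have h5 : q ^ 7 ≤ A ^ 2 := by
      calc q ^ 7 ≤ q ^ 8 := Nat.pow_le_pow_right hq0 (by norm_num)
        _ ≤ small v ^ 8 := Nat.pow_le_pow_left h 8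
        _ = (small v ^ 4) ^ 2 := by ring
        _ ≤ A ^ 2 := Nat.pow_le_pow_left h4 2
    omega
  have h4 : i ≠ si v := by
    intro h
    rw [h, part_si] at h2
    exact absurd (Nat.le_of_dvd hs0 h2) (by omega)
  obtain ⟨c, h5⟩ := exists_cl hv h4
  obtain ⟨k, hk⟩ := h2
  have h6 : Nat.Coprime (small v) (part v i) := by
    rw [← part_si]
    exact part_cop hv h4.symm
  have h7 := part_pos hv i
  rw [hk] at h5 h6 h7
  have hk0 : 0 < k := by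
    rcases Nat.eq_zero_or_pos k with h0 | h0
    · rw [h0, mul_zero] at h7
      omega
    · exact h0
  refine ⟨small v, k, c, hs0, hk0, h6.coprime_mul_left_right, h5, ?_⟩
  have h8 := cl_size hv h5
  calc 4 * (q ^ 6 * (small v ^ 2 * k ^ 6)) = (2 * (small v * (q * k) ^ 3)) ^ 2 := by ring
    _ ≤ (9 * A) ^ 2 := Nat.pow_le_pow_left h8 2
    _ = 81 * A ^ 2 := by ring

theorem co_pos (c : Fin 6) : 0 < (co c).1 := by
  fin_cases c <;> simp [co]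

theorem bd_pos (c : Fin 6) : 1 ≤ bd c := by
  fin_cases c <;> simp [bd]

/-- the real inequalities for one triangle -/
theorem real_size {Q a L w A η : ℝ} (hQ : 0 < Q) (ha : 0 < a) (hA : 0 < A) (h0 : 0 < η)
    (h1 : η < 1 / 2) (he : 4 * A = Q * (Q ^ 2 * a + L)) (hL : |L| ≤ 20 * Q * w)
    (hw : 4 * (Q ^ 6 * w) ≤ 81 * A ^ 2) (hbig : 12 * A ^ 2 ≤ (1 - 2 * η) * Q ^ 7)
    (hr : 1000 ≤ η * √Q) : 3 * a ^ 2 ≤ 4 * (1 - η) * Q ∧ 4 * a ≤ η * Q := by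
  set r := √Q with hrdef
  have hrQ : r ^ 2 = Q := Real.sq_sqrt hQ.le
  have hr0 : 0 ≤ r := Real.sqrt_nonneg _
  have hr1 : 1 ≤ r := by
    by_contra h
    push Not at h
    nlinarith
  have hQ6 : 0 < Q ^ 6 := by positivity
  have hQ3 : 0 < Q ^ 3 := by positivity
  have hQ7 : Q ^ 7 = Q ^ 6 * Q := by ring
  have hw1 : w ≤ 81 / 48 * Q := by
    have h2 : Q ^ 6 * w ≤ Q ^ 6 * (81 / 48 * Q) := by
      have h3 : (1 - 2 * η) * Q ^ 7 ≤ Q ^ 7 := by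
        have : 0 < Q ^ 7 := by positivity
        nlinarith
      nlinarith
    exact le_of_mul_le_mul_left h2 hQ6
  have hL1 : |L| ≤ 34 * Q ^ 2 := by
    refine hL.trans ?_
    have h2 : 20 * Q * w ≤ 20 * Q * (81 / 48 * Q) := mul_le_mul_of_nonneg_left hw1 (by positivity)
    nlinarith
  obtain ⟨x, hx⟩ : ∃ x : ℝ, Q ^ 3 * x = 4 * A := ⟨4 * A / Q ^ 3, by field_simp⟩
  have hx0 : 0 < x := by
    by_contra h
    push Not at h
    nlinarith
  have hx2 : 3 * x ^ 2 ≤ 4 * (1 - 2 * η) * Q := by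
    have h2 : Q ^ 6 * (3 * x ^ 2) ≤ Q ^ 6 * (4 * (1 - 2 * η) * Q) := by
      have h3 : Q ^ 6 * (3 * x ^ 2) = 3 * (4 * A) ^ 2 := by
        rw [← hx]
        ring
      rw [h3]
      have h4 : Q ^ 6 * (4 * (1 - 2 * η) * Q) = 4 * ((1 - 2 * η) * Q ^ 7) := by ring
      rw [h4]
      linarith
    exact le_of_mul_le_mul_left h2 hQ6
  have hxr : x ≤ 6 / 5 * r := by
    by_contra h
    push Not at h
    have h2 : (6 / 5 * r) ^ 2 < x ^ 2 := pow_lt_pow_left₀ h (by positivity) two_ne_zero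
    nlinarith
  have hax : a ≤ x + 34 := by
    have h2 : Q ^ 3 * a ≤ Q ^ 3 * (x + 34) := by
      have h3 : Q ^ 3 * a = 4 * A - Q * L := by
        rw [he]
        ring
      have h4 : -L ≤ 34 * Q ^ 2 := (neg_le_abs L).trans hL1
      have h5 : Q * -L ≤ Q * (34 * Q ^ 2) := mul_le_mul_of_nonneg_left h4 hQ.le
      rw [h3, mul_add, hx]
      linarith [h5]
    exact le_of_mul_le_mul_left h2 hQ3
  have hηQ : 1000 * r ≤ η * Q := by
    rw [← hrQ]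
    nlinarith
  constructor
  · have h2 : a ^ 2 ≤ (x + 34) ^ 2 := pow_le_pow_left₀ ha.le hax 2
    nlinarith
  · linarith

/-- the sharp size bounds -/
theorem size2 {A q : ℕ} {v : ℕ × ℕ} (hv : Gen A v) {s k : ℕ} {c : Fin 6} (hs : 0 < s)
    (hk : 0 < k) (h : Cl v (q * k) s c) (h9 : 4 * (q ^ 6 * (s ^ 2 * k ^ 6)) ≤ 81 * A ^ 2) {η : ℝ}
    (h0 : 0 < η) (h1 : η < 1 / 2) (hq0 : 0 < q)
    (hbig : 12 * (A : ℝ) ^ 2 ≤ (1 - 2 * η) * (q : ℝ) ^ 7) (hr : 1000 ≤ η * √(q : ℝ)) :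
    3 * (((co c).1 * ((s : ℤ) * (k : ℤ) ^ 3) : ℤ) : ℝ) ^ 2 ≤ 4 * (1 - η) * q ∧
      4 * (((co c).1 * ((s : ℤ) * (k : ℤ) ^ 3) : ℤ) : ℝ) ≤ η * q := by
  have hqz : (0 : ℤ) < q := by exact_mod_cast hq0
  have hsz : (0 : ℤ) < s := by exact_mod_cast hs
  have hkz : (0 : ℤ) < k := by exact_mod_cast hk
  have e := cl_area hv h
  have b := cl_bd h
  push_cast at e b
  have b2 : (s : ℤ) ≤ q * k := by nlinarith [bd_pos c]
  have l := low_le hqz hsz hkz b2 (co_le c).1 (co_le c).2.1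
  have hA := area_pos hv
  have e2 : 4 * (A : ℤ) = q * (q ^ 2 * ((co c).1 * ((s : ℤ) * (k : ℤ) ^ 3)) +
      ((co c).2.1 * q * ((s : ℤ) ^ 2 * (k : ℤ) ^ 2) + (co c).2.2 * ((s : ℤ) ^ 3 * k))) := by
    rw [e]
    ring
  have hkk : (s : ℤ) ^ 2 * (k : ℤ) ^ 2 ≤ (s : ℤ) ^ 2 * (k : ℤ) ^ 6 :=
    mul_le_mul_of_nonneg_left (pow_le_pow_right₀ (by omega) (by norm_num)) (by positivity)
  have l2 : |(co c).2.1 * q * ((s : ℤ) ^ 2 * (k : ℤ) ^ 2) + (co c).2.2 * ((s : ℤ) ^ 3 * k)| ≤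
      20 * q * ((s : ℤ) ^ 2 * (k : ℤ) ^ 6) :=
    l.trans (mul_le_mul_of_nonneg_left hkk (by positivity))
  refine real_size (L := (((co c).2.1 * q * ((s : ℤ) ^ 2 * (k : ℤ) ^ 2) +
    (co c).2.2 * ((s : ℤ) ^ 3 * k) : ℤ) : ℝ)) (w := (s : ℝ) ^ 2 * (k : ℝ) ^ 6) (A := (A : ℝ))
    (by exact_mod_cast hq0) ?_ (by exact_mod_cast hA) h0 h1 ?_ ?_ ?_ hbig hr
  · have : 0 < (co c).1 * ((s : ℤ) * (k : ℤ) ^ 3) := mul_pos (co_pos c) (by positivity)
    exact_mod_cast this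
  · exact_mod_cast e2
  · exact_mod_cast l2
  · exact_mod_cast h9

/-- the lower terms in comparison with the leading term -/
theorem low_c {q s k : ℤ} {c : Fin 6} (hq : 0 < q) (hs : 0 < s) (hk : 0 < k) :
    4 * |(co c).2.1 * q * (s ^ 2 * k ^ 2) + (co c).2.2 * (s ^ 3 * k)| ≤
      (if c = 0 ∨ c = 5 then 0 else 3 * q * ((co c).1 * (s * k ^ 3)) ^ 2) +
        4 * ((co c).1 * (s * k ^ 3)) ^ 3 := by
  have p1 : q * (s ^ 2 * k ^ 2) ≤ q * (s ^ 2 * k ^ 6) :=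
    mul_le_mul_of_nonneg_left (mul_le_mul_of_nonneg_left
      (pow_le_pow_right₀ (by omega) (by norm_num)) (by positivity)) hq.le
  have p2 : s ^ 3 * k ≤ s ^ 3 * k ^ 9 := by
    have : k ^ 1 ≤ k ^ 9 := pow_le_pow_right₀ (by omega) (by norm_num)
    rw [pow_one] at this
    exact mul_le_mul_of_nonneg_left this (by positivity)
  have p3 : 0 < q * (s ^ 2 * k ^ 2) := by positivity
  have p4 : 0 < s ^ 3 * k := by positivity
  fin_cases c
  · simp [co, abs_of_pos hs, abs_of_pos hk]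
    nlinarith
  · simp [co]
    rw [abs_of_nonneg (by positivity)]
    nlinarith
  · simp [co]
    have : |-(12 * q * (s ^ 2 * k ^ 2)) + 8 * (s ^ 3 * k)| ≤
        12 * (q * (s ^ 2 * k ^ 2)) + 8 * (s ^ 3 * k) := by
      rw [abs_le]
      constructor <;> nlinarith
    nlinarith
  · simp [co]
    have : |-(12 * q * (s ^ 2 * k ^ 2)) + 4 * (s ^ 3 * k)| ≤
        12 * (q * (s ^ 2 * k ^ 2)) + 4 * (s ^ 3 * k) := by
      rw [abs_le]
      constructor <;> nlinarith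
    nlinarith
  · simp [co]
    rw [abs_of_nonneg (by positivity)]
    nlinarith
  · simp [co, abs_of_pos hs, abs_of_pos hk]
    nlinarith

/-- real form of `low_c` -/
theorem low_r {q s k : ℤ} {c : Fin 6} (hq : 0 < q) (hs : 0 < s) (hk : 0 < k) {η : ℝ}
    (h0 : 0 < η)
    (H1 : 3 * (((co c).1 * (s * k ^ 3) : ℤ) : ℝ) ^ 2 ≤ 4 * (1 - η) * q)
    (H2 : 4 * (((co c).1 * (s * k ^ 3) : ℤ) : ℝ) ≤ η * q) :
    4 * |(((co c).2.1 * q * (s ^ 2 * k ^ 2) + (co c).2.2 * (s ^ 3 * k) : ℤ) : ℝ)| ≤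
      (if c = 0 ∨ c = 5 then 0 else 4 * (1 - η) * (q : ℝ) ^ 2) + 4 / 3 * η * (q : ℝ) ^ 2 := by
  have h2 := low_c (c := c) hq hs hk
  have hqr : (0 : ℝ) < q := by exact_mod_cast hq
  set a : ℤ := (co c).1 * (s * k ^ 3) with ha
  have ha0 : (0 : ℝ) < a := by
    have : 0 < a := mul_pos (co_pos c) (by positivity)
    exact_mod_cast this
  have h4 : 4 * (a : ℝ) ^ 3 ≤ 4 / 3 * η * (q : ℝ) ^ 2 := by
    have h5 : (a : ℝ) ^ 2 * (4 * a) ≤ (a : ℝ) ^ 2 * (η * q) :=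
      mul_le_mul_of_nonneg_left H2 (by positivity)
    have h6 : (a : ℝ) ^ 2 * (η * q) ≤ 4 / 3 * q * (η * q) := by
      apply mul_le_mul_of_nonneg_right _ (by positivity)
      nlinarith
    nlinarith
  have h5 : 3 * (q : ℝ) * (a : ℝ) ^ 2 ≤ 4 * (1 - η) * (q : ℝ) ^ 2 := by
    have := mul_le_mul_of_nonneg_left H1 hqr.le
    nlinarith
  split_ifs at h2 ⊢ with hc
  · have h3 : 4 * |(((co c).2.1 * q * (s ^ 2 * k ^ 2) + (co c).2.2 * (s ^ 3 * k) : ℤ) : ℝ)| ≤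
        0 + 4 * (a : ℝ) ^ 3 := by exact_mod_cast h2
    linarith
  · have h3 : 4 * |(((co c).2.1 * q * (s ^ 2 * k ^ 2) + (co c).2.2 * (s ^ 3 * k) : ℤ) : ℝ)| ≤
        3 * (q : ℝ) * (a : ℝ) ^ 2 + 4 * (a : ℝ) ^ 3 := by exact_mod_cast h2
    linarith

theorem four_dvd {c : Fin 6} (hc : ¬ (c = 0 ∨ c = 5)) (t : ℤ) : (4 : ℤ) ∣ (co c).1 * t := by
  fin_cases c
  · exact absurd (Or.inl rfl) hc
  · exact ⟨t, by simp [co]⟩
  · exact ⟨t, by simp [co]⟩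
  · exact ⟨2 * t, by simp [co]; ring⟩
  · exact ⟨2 * t, by simp [co]; ring⟩
  · exact absurd (Or.inr rfl) hc

/-- the leading terms agree under the sharp hypothesis -/
theorem lead2 {A q s k s' k' : ℤ} {c c' : Fin 6} (hq : 0 < q) (hs : 0 < s) (hk : 0 < k)
    (hs' : 0 < s') (hk' : 0 < k')
    (he : 4 * A = s * (q * k) * ((co c).1 * (q * k) ^ 2 + (co c).2.1 * (q * k) * s +
      (co c).2.2 * s ^ 2))
    (he' : 4 * A = s' * (q * k') * ((co c').1 * (q * k') ^ 2 + (co c').2.1 * (q * k') * s' +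
      (co c').2.2 * s' ^ 2)) {η : ℝ} (h0 : 0 < η) (h1 : η < 1)
    (H1 : 3 * (((co c).1 * (s * k ^ 3) : ℤ) : ℝ) ^ 2 ≤ 4 * (1 - η) * q)
    (H2 : 4 * (((co c).1 * (s * k ^ 3) : ℤ) : ℝ) ≤ η * q)
    (H1' : 3 * (((co c').1 * (s' * k' ^ 3) : ℤ) : ℝ) ^ 2 ≤ 4 * (1 - η) * q)
    (H2' : 4 * (((co c').1 * (s' * k' ^ 3) : ℤ) : ℝ) ≤ η * q) :
    (co c).1 * (s * k ^ 3) = (co c').1 * (s' * k' ^ 3) ∧
      (co c).2.1 * q * (s ^ 2 * k ^ 2) + (co c).2.2 * (s ^ 3 * k) =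
        (co c').2.1 * q * (s' ^ 2 * k' ^ 2) + (co c').2.2 * (s' ^ 3 * k') := by
  have r := low_r hq hs hk h0 H1 H2
  have r' := low_r hq hs' hk' h0 H1' H2'
  have hqr : (0 : ℝ) < q := by exact_mod_cast hq
  have hq2 : (0 : ℝ) < (q : ℝ) ^ 2 := by positivity
  have h3 : q ^ 2 * ((co c).1 * (s * k ^ 3) - (co c').1 * (s' * k' ^ 3)) =
      ((co c').2.1 * q * (s' ^ 2 * k' ^ 2) + (co c').2.2 * (s' ^ 3 * k')) -
        ((co c).2.1 * q * (s ^ 2 * k ^ 2) + (co c).2.2 * (s ^ 3 * k)) := by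
    apply mul_left_cancel₀ hq.ne'
    linear_combination he' - he
  generalize hL : (co c).2.1 * q * (s ^ 2 * k ^ 2) + (co c).2.2 * (s ^ 3 * k) = L at *
  generalize hL' : (co c').2.1 * q * (s' ^ 2 * k' ^ 2) + (co c').2.2 * (s' ^ 3 * k') = L' at *
  have key : (co c).1 * (s * k ^ 3) - (co c').1 * (s' * k' ^ 3) = 0 := by
    have h5 : 4 * ((q : ℝ) ^ 2 * |(((co c).1 * (s * k ^ 3) - (co c').1 * (s' * k' ^ 3) : ℤ) : ℝ)|) ≤
        4 * |(L : ℝ)| + 4 * |(L' : ℝ)| := by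
      have h6 : (q : ℝ) ^ 2 * |(((co c).1 * (s * k ^ 3) - (co c').1 * (s' * k' ^ 3) : ℤ) : ℝ)| =
          |(L' : ℝ) - (L : ℝ)| := by
        rw [← abs_of_pos hq2, ← abs_mul]
        congr 1
        exact_mod_cast h3
      rw [h6]
      have := abs_sub (L' : ℝ) (L : ℝ)
      linarith
    by_cases hc : c = 0 ∨ c = 5 ∨ c' = 0 ∨ c' = 5
    · by_contra hne
      have h7 : (1 : ℤ) ≤ |(co c).1 * (s * k ^ 3) - (co c').1 * (s' * k' ^ 3)| :=
        Int.one_le_abs hne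
      have h8 : (1 : ℝ) ≤ |(((co c).1 * (s * k ^ 3) - (co c').1 * (s' * k' ^ 3) : ℤ) : ℝ)| := by
        exact_mod_cast h7
      have h9 : (q : ℝ) ^ 2 * 1 ≤
          (q : ℝ) ^ 2 * |(((co c).1 * (s * k ^ 3) - (co c').1 * (s' * k' ^ 3) : ℤ) : ℝ)| :=
        mul_le_mul_of_nonneg_left h8 hq2.le
      have h10 : 0 ≤ 4 * (1 - η) * (q : ℝ) ^ 2 := by
        have : 0 < 1 - η := by linarith
        positivity
      have h11 : (4 : ℝ) * |(L : ℝ)| + 4 * |(L' : ℝ)| ≤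
          4 * (1 - η) * (q : ℝ) ^ 2 + 8 / 3 * η * (q : ℝ) ^ 2 := by
        rcases hc with hc | hc | hc | hc
        · rw [if_pos (Or.inl hc)] at r
          split_ifs at r' <;> linarith
        · rw [if_pos (Or.inr hc)] at r
          split_ifs at r' <;> linarith
        · rw [if_pos (Or.inl hc)] at r'
          split_ifs at r <;> linarith
        · rw [if_pos (Or.inr hc)] at r'
          split_ifs at r <;> linarith
      nlinarith [mul_pos h0 hq2]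
    · push Not at hc
      obtain ⟨t, ht⟩ := four_dvd (c := c) (by tauto) (s * k ^ 3)
      obtain ⟨t', ht'⟩ := four_dvd (c := c') (by tauto) (s' * k' ^ 3)
      rw [ht, ht'] at h5 ⊢
      by_contra hne
      have hne' : t - t' ≠ 0 := by
        intro h
        apply hne
        linarith
      have h7 : (1 : ℤ) ≤ |t - t'| := Int.one_le_abs hne'
      have h8 : (1 : ℝ) ≤ |((t - t' : ℤ) : ℝ)| := by exact_mod_cast h7
      have h9 : |((4 * t - 4 * t' : ℤ) : ℝ)| = 4 * |((t - t' : ℤ) : ℝ)| := by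
        have : ((4 * t - 4 * t' : ℤ) : ℝ) = 4 * ((t - t' : ℤ) : ℝ) := by push_cast; ring
        rw [this, abs_mul]
        norm_num
      rw [h9] at h5
      have h10 : (q : ℝ) ^ 2 * 1 ≤ (q : ℝ) ^ 2 * |((t - t' : ℤ) : ℝ)| :=
        mul_le_mul_of_nonneg_left h8 hq2.le
      rw [if_neg (by tauto)] at r r'
      nlinarith [mul_pos h0 hq2]
  refine ⟨by linarith, ?_⟩
  rw [key, mul_zero] at h3
  linarith

end Pool.Agent.H83.UQ
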