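import Pool.Agent.H83.UQ.Shp

/-!
MP_912b3a_nt: the sharp constant: end of the proof.
-/

namespace Pool.Agent.H83.UQ

open Pool.Agent.H99.PT Pool.Agent.H83.LP

theorem core2 {q : ℤ} {s k s' k' : ℤ} {c c' : Fin 6} (hq : 0 < q) (hs : 0 < s) (hk : 0 < k)
    (hs' : 0 < s') (hk' : 0 < k') (hb : bd c * s ≤ q * k) (hb' : bd c' * s' ≤ q * k')
    (h1 : (co c).1 * (s * k ^ 3) = (co c').1 * (s' * k' ^ 3))
    (h2 : (co c).2.1 * q * (s ^ 2 * k ^ 2) + (co c).2.2 * (s ^ 3 * k) =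
        (co c').2.1 * q * (s' ^ 2 * k' ^ 2) + (co c').2.2 * (s' ^ 3 * k')) (hlt : c < c') :
      (c = 0 ∧ ((s * k ^ 3 = s' * k' ^ 3 ∧
        3 * q * (s' ^ 2 * k' ^ 2) = 2 * (s' ^ 3 * k') + s ^ 3 * k) ∨
      (s * k ^ 3 = 2 * (s' * k' ^ 3) ∧
        3 * q * (s' ^ 2 * k' ^ 2) = s' ^ 3 * k' + s ^ 3 * k))) ∨
      (c' = 5 ∧ ((s' * k' ^ 3 = 4 * (s * k ^ 3) ∧
        12 * q * (s ^ 2 * k ^ 2) = 8 * (s ^ 3 * k) + s' ^ 3 * k') ∨
      (s' * k' ^ 3 = 8 * (s * k ^ 3) ∧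
        12 * q * (s ^ 2 * k ^ 2) = 4 * (s ^ 3 * k) + s' ^ 3 * k'))) := by
  have hqk : 0 < q * k := by positivity
  have hqk' : 0 < q * k' := by positivity
  have hkk : 0 < k * k' := by positivity
  have hqkk : 0 < q * (k * k') := by positivity
  have hsk : 0 < s * k' := by positivity
  have hsk' : 0 < s' * k := by positivity
  have m1 := mul_le_mul_of_nonneg_right hb hk'.le
  have m2 := mul_le_mul_of_nonneg_right hb' hk.le
  by_cases hc : c = 1 ∨ c = 4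
  · by_cases hc' : c' = 1 ∨ c' = 4
    · have : c = 1 ∧ c' = 4 := by
        rcases hc with rfl | rfl <;> rcases hc' with rfl | rfl
        · exact absurd hlt (lt_irrefl _)
        · exact ⟨rfl, rfl⟩
        · exact absurd hlt (by decide)
        · exact absurd hlt (lt_irrefl _)
      obtain ⟨rfl, rfl⟩ := this
      exfalso
      simp [co] at h1 h2
      exact dbl (q := q) (β := 12) hs hk hs' hk' (by linarith) h2 (by positivity)
    · have h3 := low_pos (c := c) hq hs hk hc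
      have h4 := low_neg (c := c') hs' hk' hc' hb'
      linarith
  · by_cases hc' : c' = 1 ∨ c' = 4
    · have h3 := low_pos (c := c') hq hs' hk' hc'
      have h4 := low_neg (c := c) hs hk hc hb
      linarith
    · fin_cases c <;> fin_cases c' <;> simp at hc hc' hlt <;> simp [co, bd] at h1 h2 m1 m2
      · exact Or.inl ⟨rfl, Or.inl ⟨by linarith, by linarith⟩⟩
      · exact Or.inl ⟨rfl, Or.inr ⟨by linarith, by linarith⟩⟩
      · exact (quad hs hk hk' h1 h2).elim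
      · refine (dbl (q := q) (β := -12) hs hk hs' hk' (by linarith) (by linarith) ?_).elim
        intro h0
        linarith
      · exact Or.inr ⟨rfl, Or.inl ⟨by linarith, by linarith⟩⟩
      · exact Or.inr ⟨rfl, Or.inr ⟨by linarith, by linarith⟩⟩

theorem core_nat2 {A q : ℕ} {v w : ℕ × ℕ} (hv : Gen A v) (hw : Gen A w) {s k s' k' : ℕ}
    {c c' : Fin 6} (hq : 0 < q) (hs : 0 < s) (hk : 0 < k) (hs' : 0 < s') (hk' : 0 < k')
    (hcop : Nat.Coprime s k) (hcop' : Nat.Coprime s' k') (h : Cl v (q * k) s c)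
    (h' : Cl w (q * k') s' c') (h9 : 4 * (q ^ 6 * (s ^ 2 * k ^ 6)) ≤ 81 * A ^ 2)
    (h9' : 4 * (q ^ 6 * (s' ^ 2 * k' ^ 6)) ≤ 81 * A ^ 2) {η : ℝ} (h0 : 0 < η) (h1 : η < 1 / 2)
    (hbig : 12 * (A : ℝ) ^ 2 ≤ (1 - 2 * η) * (q : ℝ) ^ 7) (hr : 1000 ≤ η * √(q : ℝ)) :
    (c = c' → s = s' ∧ k = k') ∧ ¬ c < c' := by
  have hqz : (0 : ℤ) < q := by exact_mod_cast hq
  have hqr : (0 : ℝ) < q := by exact_mod_cast hq
  have hsz : (0 : ℤ) < s := by exact_mod_cast hs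
  have hkz : (0 : ℤ) < k := by exact_mod_cast hk
  have hsz' : (0 : ℤ) < s' := by exact_mod_cast hs'
  have hkz' : (0 : ℤ) < k' := by exact_mod_cast hk'
  have e := cl_area hv h
  have e' := cl_area hw h'
  have b := cl_bd h
  have b' := cl_bd h'
  push_cast at e e' b b'
  obtain ⟨H1, H2⟩ := size2 hv hs hk h h9 h0 h1 hq hbig hr
  obtain ⟨H1', H2'⟩ := size2 hw hs' hk' h' h9' h0 h1 hq hbig hr
  obtain ⟨l1, l2⟩ := lead2 hqz hsz hkz hsz' hkz' e e' h0 (by linarith) (by exact_mod_cast H1)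
    (by exact_mod_cast H2) (by exact_mod_cast H1') (by exact_mod_cast H2')
  constructor
  · rintro rfl
    have := (core hqz hsz hkz hsz' hkz' b b' l1 l2).1 rfl
    exact_mod_cast this
  · intro hlt
    rcases core2 hqz hsz hkz hsz' hkz' b b' l1 l2 hlt with ⟨hc, r⟩ | ⟨hc, r⟩
    · refine mixed2 (q := q) hs hk hk' hcop' (Or.inl ⟨?_, by exact_mod_cast r⟩)
      subst hc
      have h5 : 12 * ((s : ℝ) ^ 2 * (k : ℝ) ^ 6) < q := by
        have h6 : 3 * (4 * ((s : ℝ) * (k : ℝ) ^ 3)) ^ 2 ≤ 4 * (1 - η) * q := by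
          simpa [co] using H1
        nlinarith [mul_pos h0 hqr]
      exact_mod_cast h5
    · refine mixed2 (q := q) hs' hk' hk hcop (Or.inr ⟨?_, by exact_mod_cast r⟩)
      subst hc
      have h5 : 3 * ((s' : ℝ) ^ 2 * (k' : ℝ) ^ 6) < 4 * q := by
        have h6 : 3 * ((s' : ℝ) * (k' : ℝ) ^ 3) ^ 2 ≤ 4 * (1 - η) * q := by
          simpa [co] using H1'
        nlinarith [mul_pos h0 hqr]
      exact_mod_cast h5

theorem unique2 {A q : ℕ} {η : ℝ} (h0 : 0 < η) (h1 : η < 1 / 2) (hA : 0 < A)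
    (hbig : 12 * (A : ℝ) ^ 2 ≤ (1 - 2 * η) * (q : ℝ) ^ 7) (hr : 1000 ≤ η * √(q : ℝ))
    {v w : ℕ × ℕ} (hv : Gen A v) (hw : Gen A w) {i j : Fin 4} (hi : q ∣ part v i)
    (hj : q ∣ part w j) : v = w := by
  have hA2 : (0 : ℝ) < (A : ℝ) ^ 2 := by positivity
  have hq : 0 < q := by
    rcases Nat.eq_zero_or_pos q with h | h
    · rw [h] at hr
      norm_num at hr
    · exact h
  have hqr : (0 : ℝ) < (q : ℝ) ^ 7 := by positivity
  have hb : A ^ 2 < q ^ 7 := by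
    have : (A : ℝ) ^ 2 < (q : ℝ) ^ 7 := by nlinarith
    exact_mod_cast this
  obtain ⟨s, k, c, hs, hk, hcop, h, H⟩ := data1 hv hb hi
  obtain ⟨s', k', c', hs', hk', hcop', h', H'⟩ := data1 hw hb hj
  obtain ⟨r1, r2⟩ := core_nat2 hv hw hq hs hk hs' hk' hcop hcop' h h' H H' h0 h1 hbig hr
  obtain ⟨_, r3⟩ := core_nat2 hw hv hq hs' hk' hs hk hcop' hcop h' h H' H h0 h1 hbig hr
  have hcc : c = c' := le_antisymm (not_lt.mp r3) (not_lt.mp r2)
  subst hcc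
  obtain ⟨rfl, rfl⟩ := r1 rfl
  exact cl_inj h h'

/-- the sharp constant -/
theorem sharp (ε : ℝ) (hε : 0 < ε) : ∃ A₀ : ℕ, ∀ A q : ℕ, A₀ ≤ A →
    (12 + ε) * (A : ℝ) ^ 2 ≤ (q : ℝ) ^ 7 → ∀ v w : ℕ × ℕ, Gen A v → Gen A w →
    ∀ i j : Fin 4, q ∣ part v i → q ∣ part w j → v = w := by
  set η : ℝ := ε / (2 * (12 + ε)) with hη
  have h0 : 0 < η := by positivity
  have h1 : η < 1 / 2 := by
    rw [hη, div_lt_div_iff₀ (by positivity) (by norm_num)]
    linarith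
  have h2 : (1 - 2 * η) * (12 + ε) = 12 := by
    rw [hη]
    field_simp
    ring
  set N : ℕ := ⌈(1000 / η) ^ 2⌉₊ + 1 with hN
  refine ⟨N ^ 4, ?_⟩
  intro A q hA hbig v w hv hw i j hi hj
  have hN1 : 1 ≤ N := by omega
  have hApos : 0 < A := lt_of_lt_of_le (by positivity) hA
  have h12 : 0 < 1 - 2 * η := by linarith
  have hbig' : 12 * (A : ℝ) ^ 2 ≤ (1 - 2 * η) * (q : ℝ) ^ 7 := by
    have := mul_le_mul_of_nonneg_left hbig h12.le
    rw [← mul_assoc, h2] at this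
    exact this
  have hAq : A ^ 2 ≤ q ^ 7 := by
    have : (A : ℝ) ^ 2 ≤ (q : ℝ) ^ 7 := by
      have : (0 : ℝ) ≤ (A : ℝ) ^ 2 := by positivity
      nlinarith
    exact_mod_cast this
  have hNq : N ≤ q := by
    by_contra h
    push Not at h
    have h3 : q ^ 7 < N ^ 7 := Nat.pow_lt_pow_left h (by norm_num)
    have h4 : N ^ 7 ≤ N ^ 8 := Nat.pow_le_pow_right hN1 (by norm_num)
    have h5 : N ^ 8 ≤ A ^ 2 := by
      calc N ^ 8 = (N ^ 4) ^ 2 := by ring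
        _ ≤ A ^ 2 := Nat.pow_le_pow_left hA 2
    omega
  have hr : 1000 ≤ η * √(q : ℝ) := by
    have h3 : (1000 / η) ^ 2 ≤ (q : ℝ) := by
      have h4 : (1000 / η) ^ 2 ≤ (⌈(1000 / η) ^ 2⌉₊ : ℝ) := Nat.le_ceil _
      have h5 : (⌈(1000 / η) ^ 2⌉₊ : ℝ) ≤ (q : ℝ) := by
        have : ⌈(1000 / η) ^ 2⌉₊ ≤ q := by omega
        exact_mod_cast this
      linarith
    have h4 : 1000 / η ≤ √(q : ℝ) := Real.le_sqrt_of_sq_le h3
    calc (1000 : ℝ) = η * (1000 / η) := by field_simp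
      _ ≤ η * √(q : ℝ) := mul_le_mul_of_nonneg_left h4 h0.le
  exact unique2 h0 h1 hApos hbig' hr hv hw hi hj

end Pool.Agent.H83.UQ
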